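import Pool.Agent.Run7.h879.Sp7

/-!
Small solutions of Fermat's equation: almost all primes.
-/

set_option autoImplicit false

namespace Run7.h879.Sp

open NumberField IsDedekindDomain Height Pool.Agent.W7.FH

variable {K : Type} [Field K] [NumberField K]

theorem exists_large (d : ℕ) (θ : ℝ) (hθ : 0 < θ) (hθ1 : θ < 1) : ∃ N : ℕ, ∀ p : ℕ, N ≤ p →
    d * Real.log 2 + (p : ℝ) ^ θ < p * Real.log 2 := by
  have h1 := (tendsto_rpow_atTop (show 0 < 1 - θ by linarith)).eventually_ge_atTop (2 * (d + 2 : ℝ))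
  obtain ⟨N, hN⟩ := Filter.eventually_atTop.1
    ((tendsto_natCast_atTop_atTop (R := ℝ)).eventually h1)
  refine ⟨N + 1, fun p hp => ?_⟩
  have h2 := hN p (by omega)
  have hp1 : (1 : ℝ) ≤ p := by exact_mod_cast (by omega : 1 ≤ p)
  have h3 : (1 : ℝ) ≤ (p : ℝ) ^ θ := Real.one_le_rpow hp1 hθ.le
  have h4 : (p : ℝ) = (p : ℝ) ^ θ * (p : ℝ) ^ (1 - θ) := by
    rw [← Real.rpow_add (by linarith)]
    simp
  have h5 := Real.log_two_gt_d9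
  have h6 := log2_le
  have hd : (0 : ℝ) ≤ d := Nat.cast_nonneg _
  have h7 : (p : ℝ) ^ θ * (2 * (d + 2)) ≤ p := by
    conv_rhs => rw [h4]
    exact mul_le_mul_of_nonneg_left h2 (by linarith)
  have h8 : (p : ℝ) / 2 ≤ p * Real.log 2 := by nlinarith
  have h9 : d * Real.log 2 ≤ d := by nlinarith
  nlinarith

theorem log_pow_le (n : ℕ) (δ : ℝ) (hδ : 0 < δ) : ∃ C : ℝ, 0 < C ∧ ∀ P : ℕ, 1 ≤ P →
    Real.log P ^ (2 * n) ≤ C * (P : ℝ) ^ δ := by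
  obtain ⟨ε, hε⟩ : ∃ ε : ℝ, ε = δ / (2 * n + 1) := ⟨_, rfl⟩
  have hε0 : 0 < ε := by rw [hε]; positivity
  refine ⟨(1 / ε) ^ (2 * n), by positivity, fun P hP => ?_⟩
  have hP1 : (1 : ℝ) ≤ P := by exact_mod_cast hP
  have h1 := Real.log_le_rpow_div (show (0 : ℝ) ≤ P by linarith) hε0
  calc Real.log P ^ (2 * n) ≤ ((P : ℝ) ^ ε / ε) ^ (2 * n) :=
        pow_le_pow_left₀ (Real.log_nonneg hP1) h1 _
    _ = (1 / ε) ^ (2 * n) * (P : ℝ) ^ (ε * (2 * n : ℕ)) := by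
        rw [Real.rpow_mul (by linarith), Real.rpow_natCast, div_pow, one_div, inv_pow]
        ring
    _ ≤ (1 / ε) ^ (2 * n) * (P : ℝ) ^ δ := by
        apply mul_le_mul_of_nonneg_left _ (by positivity)
        apply Real.rpow_le_rpow_of_exponent_le hP1
        rw [hε, div_mul_eq_mul_div, div_le_iff₀ (by positivity)]
        push_cast
        nlinarith

theorem main_two (hω : ∀ z : K, z ^ 2 + z + 1 ≠ 0) (θ : ℝ) (hθ : 0 < θ) (hθ1 : θ < 1)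
    (hθ2 : θ * ((Units.rank K - 1 : ℕ) : ℝ) < 1) : ∃ C δ : ℝ, 0 < δ ∧ ∀ P : ℕ, 2 ≤ P →
    (({p : ℕ | p.Prime ∧ p ≤ P ∧ ∃ a b c : K, a ≠ 0 ∧ b ≠ 0 ∧ c ≠ 0 ∧ a ^ p + b ^ p + c ^ p = 0 ∧
      logHeight ![a, b, c] ≤ (p : ℝ) ^ θ}.ncard : ℕ) : ℝ) ≤ C * (P : ℝ) ^ (1 - δ) := by
  classical
  obtain ⟨C, hC⟩ := main_one hω
  obtain ⟨ρ, hρ⟩ : ∃ ρ : ℝ, ρ = θ * ((Units.rank K - 1 : ℕ) : ℝ) := ⟨_, rfl⟩
  rw [← hρ] at hθ2
  have hρ0 : 0 ≤ ρ := by rw [hρ]; positivity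
  obtain ⟨δ, hδ⟩ : ∃ δ : ℝ, δ = (1 - ρ) / 2 := ⟨_, rfl⟩
  have hδ0 : 0 < δ := by rw [hδ]; linarith
  obtain ⟨C2, hC20, hC2⟩ := log_pow_le (Units.rank K + 1) δ hδ0
  obtain ⟨N, hN⟩ := exists_large (Module.finrank ℚ K) θ hθ hθ1
  refine ⟨N + |C| * C2, δ, hδ0, fun P hP => ?_⟩
  have hP1 : (1 : ℝ) ≤ P := by exact_mod_cast (by omega : 1 ≤ P)
  have hPθ : (1 : ℝ) ≤ (P : ℝ) ^ θ := Real.one_le_rpow hP1 hθ.le
  have h1 := hC P ((P : ℝ) ^ θ) hP hPθ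
  have hfin : (Exc K P ((P : ℝ) ^ θ)).Finite := (Finset.finite_toSet (Finset.range (P + 1))).subset
    fun p hp => by
      rw [Finset.mem_coe, Finset.mem_range]
      have := hp.2.1
      omega
  have h2 : {p : ℕ | p.Prime ∧ p ≤ P ∧ ∃ a b c : K, a ≠ 0 ∧ b ≠ 0 ∧ c ≠ 0 ∧
      a ^ p + b ^ p + c ^ p = 0 ∧ logHeight ![a, b, c] ≤ (p : ℝ) ^ θ} ⊆
      ((Finset.range N : Finset ℕ) : Set ℕ) ∪ Exc K P ((P : ℝ) ^ θ) := by
    rintro p ⟨hp, hpP, a, b, c, ha, hb, hc, h, hh⟩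
    by_cases hpN : p < N
    · left
      rw [Finset.mem_coe, Finset.mem_range]
      exact hpN
    · right
      push Not at hpN
      have h3 := hN p hpN
      refine ⟨hp, hpP, a, b, c, ha, hb, hc, h, hh.trans ?_, ?_⟩
      · exact Real.rpow_le_rpow (Nat.cast_nonneg _) (by exact_mod_cast hpP) hθ.le
      · have h4 : 0 < mulHeight ![a, b, c] := by
          have := one_le_mulHeight ![a, b, c]
          linarith
        rw [← Real.log_lt_log_iff (by positivity) (by positivity), Real.log_mul (by positivity)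
          h4.ne', Real.log_pow, Real.log_pow]
        have h5 : Real.log (mulHeight ![a, b, c]) ≤ (p : ℝ) ^ θ := hh
        linarith
  have h3 : {p : ℕ | p.Prime ∧ p ≤ P ∧ ∃ a b c : K, a ≠ 0 ∧ b ≠ 0 ∧ c ≠ 0 ∧
      a ^ p + b ^ p + c ^ p = 0 ∧ logHeight ![a, b, c] ≤ (p : ℝ) ^ θ}.ncard ≤
      N + (Exc K P ((P : ℝ) ^ θ)).ncard := by
    refine (Set.ncard_le_ncard h2 ((Finset.finite_toSet _).union hfin)).trans ?_
    refine (Set.ncard_union_le _ _).trans ?_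
    rw [Set.ncard_coe_finset, Finset.card_range]
  have h4 := hC2 P (by omega)
  have e1 : 2 * (Units.rank K + 1) = 2 * Units.rank K + 2 := by ring
  rw [e1] at h4
  have e2 : ((P : ℝ) ^ θ) ^ (Units.rank K - 1) = (P : ℝ) ^ ρ := by
    rw [hρ, Real.rpow_mul (by linarith), Real.rpow_natCast]
  rw [e2] at h1
  have h5 : C * Real.log P ^ (2 * Units.rank K + 2) * (P : ℝ) ^ ρ ≤ |C| * C2 * (P : ℝ) ^ (1 - δ) := by
    have e3 : (P : ℝ) ^ (1 - δ) = (P : ℝ) ^ δ * (P : ℝ) ^ ρ := by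
      rw [← Real.rpow_add (by linarith)]
      congr 1
      rw [hδ]
      ring
    rw [e3]
    have h6 : 0 ≤ Real.log P ^ (2 * Units.rank K + 2) := pow_nonneg (Real.log_nonneg hP1) _
    have h7 : 0 ≤ (P : ℝ) ^ ρ := by positivity
    calc C * Real.log P ^ (2 * Units.rank K + 2) * (P : ℝ) ^ ρ ≤
        |C| * (C2 * (P : ℝ) ^ δ) * (P : ℝ) ^ ρ := by
          apply mul_le_mul_of_nonneg_right _ h7
          exact (mul_le_mul_of_nonneg_right (le_abs_self C) h6).trans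
            (mul_le_mul_of_nonneg_left h4 (abs_nonneg _))
      _ = _ := by ring
  have h6 : (N : ℝ) ≤ N * (P : ℝ) ^ (1 - δ) := by
    have : (1 : ℝ) ≤ (P : ℝ) ^ (1 - δ) := Real.one_le_rpow hP1 (by rw [hδ]; linarith)
    have h7 : (0 : ℝ) ≤ N := Nat.cast_nonneg _
    nlinarith
  have h7 : (({p : ℕ | p.Prime ∧ p ≤ P ∧ ∃ a b c : K, a ≠ 0 ∧ b ≠ 0 ∧ c ≠ 0 ∧
      a ^ p + b ^ p + c ^ p = 0 ∧ logHeight ![a, b, c] ≤ (p : ℝ) ^ θ}.ncard : ℕ) : ℝ) ≤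
      N + (Exc K P ((P : ℝ) ^ θ)).ncard := by exact_mod_cast h3
  calc _ ≤ (N : ℝ) + (Exc K P ((P : ℝ) ^ θ)).ncard := h7
    _ ≤ N * (P : ℝ) ^ (1 - δ) + |C| * C2 * (P : ℝ) ^ (1 - δ) := by linarith
    _ = _ := by ring

end Run7.h879.Sp
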