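import Pool.Agent.Run7.h879.Second
import Pool.Agent.N840.FC.One
import Pool.Agent.Y546.WQ.All2

/-!
The first case for prime exponents under conditions on `p` and on its decomposition.
-/

set_option autoImplicit false

namespace Run7.h879.FCase

open NumberField IsDedekindDomain

/-- the conditions on the decomposition of `p` (prime exponents) -/
def Cond (K : Type) [Field K] [NumberField K] (m p : ℕ) : Prop :=
  (Odd m ∧ (¬ p ^ 2 ∣ 2 ^ (p - 1) - 1 ∨ ¬ ∃ v₁ v₂ v₃ : HeightOneSpectrum (𝓞 K),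
    v₁ ≠ v₂ ∧ v₁ ≠ v₃ ∧ v₂ ≠ v₃ ∧ ((p : ℕ) : 𝓞 K) ∈ v₁.asIdeal ∧ ((p : ℕ) : 𝓞 K) ∈ v₂.asIdeal ∧
    ((p : ℕ) : 𝓞 K) ∈ v₃.asIdeal)) ∨
  (∃ (v : HeightOneSpectrum (𝓞 K)) (e f : ℕ), ((p : ℕ) : 𝓞 K) ∈ v.asIdeal ^ e ∧
    Ideal.absNorm v.asIdeal = p ^ f ∧
    ((m < 2 * (e * f) ∧ (p % 3 = 1 ∨ Odd f)) ∨
     (m < 3 * (e * f) ∧ p % 3 = 2 ∧ Odd f ∧ ¬ 3 ∣ f) ∨
     (m < 6 * (e * f) ∧ p % 3 = 2 ∧ Odd f ∧ ¬ 3 ∣ f ∧ ¬ p ^ 2 ∣ 2 ^ (p - 1) - 1))) ∨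
  (¬ 3 ∣ m ∧ p % 3 = 2 ∧ ∀ v : HeightOneSpectrum (𝓞 K), ((p : ℕ) : 𝓞 K) ∈ v.asIdeal →
    Ideal.absNorm v.asIdeal % 3 ≠ 1) ∨
  (¬ p ^ 2 ∣ 2 ^ (p - 1) - 1 ∧
    (∀ P : Ideal (𝓞 K), P.IsPrime → (2 : 𝓞 K) ∈ P → Nat.card (𝓞 K ⧸ P) = 2) ∧
    (¬ 3 ∣ m ∨ ∀ P P' : Ideal (𝓞 K), P.IsPrime → P'.IsPrime →
      (2 : 𝓞 K) ∈ P → (2 : 𝓞 K) ∈ P' → P = P'))

theorem tt_of {q n : ℕ} (hq : q % 3 ≠ 1) (hq0 : 0 < q) : Pool.Agent.N840.FC.TT q n := by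
  unfold Pool.Agent.N840.FC.TT
  intro h
  have h1 : 3 ∣ (q - 1) / Nat.gcd (q - 1) n := (by norm_num : 3 ∣ 6).trans h
  have h2 : 3 ∣ q - 1 := h1.trans (Nat.div_dvd_of_dvd (Nat.gcd_dvd_left _ _))
  omega

theorem pow_mod {p f : ℕ} (h : p % 3 = 2) (hf : Odd f) : p ^ f % 3 ≠ 1 := by
  obtain ⟨k, rfl⟩ := hf
  rw [Nat.pow_mod, h, pow_succ, pow_mul]
  have : (2 ^ 2) ^ k % 3 = 1 := by
    rw [Nat.pow_mod]
    norm_num
  omega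

theorem no_first {p : ℕ} (hp : p.Prime) {K : Type} [Field K] [NumberField K]
    (hreg : Pool.Agent.N840.FC.Bern p (Module.finrank ℚ K))
    (hK : Cond K (Module.finrank ℚ K) p)
    {a b c : K} (ha : a ≠ 0) (hb : b ≠ 0) (hc : c ≠ 0) (h : a ^ p + b ^ p + c ^ p = 0)
    (hv : ∀ v : HeightOneSpectrum (𝓞 K), ((p : ℕ) : 𝓞 K) ∈ v.asIdeal →
      v.valuation K a = v.valuation K b ∧ v.valuation K b = v.valuation K c) : False := by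
  have hm := Module.finrank_pos (R := ℚ) (M := K)
  have h5 : 2 * Module.finrank ℚ K + 3 ≤ p := hreg.le hm
  have hodd : Odd p := hp.odd_of_ne_two (by omega)
  have hp3 : p % 3 ≠ 0 := by
    intro h3
    have := (Nat.prime_dvd_prime_iff_eq Nat.prime_three hp).1 (Nat.dvd_of_mod_eq_zero h3)
    omega
  have hpos : ∀ f : ℕ, 0 < p ^ f := fun f => pow_pos hp.pos f
  -- the form needed for `Dec`
  have hdec : Pool.Agent.N840.FC.Dec K p (p * 1) → False := by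
    intro hD
    refine Pool.Agent.N840.FC.main hp hreg 1 hD ha hb (neg_ne_zero.2 hc) (z := -c) ?_ ?_
    · rw [mul_one, hodd.neg_pow]
      linear_combination h
    · intro v hpv
      rw [Valuation.map_neg]
      exact hv v hpv
  rcases hK with ⟨hmo, hW | h3⟩ | ⟨v, e, f, hpe, hf, hcase⟩ | ⟨h3m, hp2, hall⟩ | ⟨hW, hK2, hm3⟩
  · exact Pool.Agent.Y546.WQ.mainAll hp hreg (Or.inl ⟨hmo, hW⟩) ha hb hc h hv
  · apply hdec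
    refine Or.inr (Or.inr (Or.inr (Or.inr ⟨hmo, ?_⟩)))
    rintro ⟨v₁, v₂, v₃, h12, h13, h23, g1, g2, g3, -⟩
    exact h3 ⟨v₁, v₂, v₃, h12, h13, h23, g1, g2, g3⟩
  · apply hdec
    rcases hcase with ⟨h2, h1 | h1⟩ | ⟨h2, h1, h4, h6⟩ | ⟨h2, h1, h4, h6, hW⟩
    · exact Or.inl ⟨v, e, f, hpe, hf, h2, Or.inl h1⟩
    · refine Or.inl ⟨v, e, f, hpe, hf, h2, ?_⟩
      by_cases h7 : p % 3 = 1
      · exact Or.inl h7
      · exact Or.inr (tt_of (pow_mod (by omega) h1) (hpos f))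
    · exact Or.inr (Or.inl ⟨v, e, f, hpe, hf, h2, h6, tt_of (pow_mod h1 h4) (hpos f)⟩)
    · refine Or.inr (Or.inr (Or.inl ⟨v, e, f, hpe, hf, h2, ?_, h6,
        tt_of (pow_mod h1 h4) (hpos f), Or.inl hW⟩))
      rw [← Nat.not_even_iff_odd, even_iff_two_dvd] at h4
      exact h4
  · apply hdec
    refine Or.inr (Or.inr (Or.inr (Or.inl ⟨h3m, fun v hpv => ?_⟩)))
    refine tt_of (hall v hpv) (Nat.pos_of_ne_zero ?_)
    exact_mod_cast HeightOneSpectrum.absNorm_ne_zero v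
  · refine Pool.Agent.Y546.WQ.mainTwo hp ?_ hW hK2 hm3 ha hb hc h hv
    rcases hreg with h1 | h1
    · exact Or.inl ⟨h1.1, fun k hk => by have := h1.2 k hk; omega⟩
    · exact Or.inr h1

end Run7.h879.FCase
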