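import Pool.Agent.Run7.h879.Sp5

/-!
Small solutions of Fermat's equation: the count.
-/

set_option autoImplicit false

namespace Run7.h879.Sp

open NumberField IsDedekindDomain Height Pool.Agent.W7.FH

variable {K : Type} [Field K] [NumberField K]

theorem exists_s {p : ℕ} (D : Dat K p) (hp : 1 ≤ p) (hodd : Odd p) :
    ∃ s : InfinitePlace K → Fin 3, ∀ w i, i ≠ s w → D.Good i w := by
  classical
  have : ∀ w, ∃ k : Fin 3, ∀ i, i ≠ k → D.Good i w := by
    intro w
    by_cases h : ∃ k, ¬ D.Good k w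
    · obtain ⟨k, hk⟩ := h
      exact ⟨k, fun i hi => (D.good_or hp hodd w i k hi).resolve_right hk⟩
    · push Not at h
      exact ⟨0, fun i _ => h i⟩
  choose s hs using this
  exact ⟨s, hs⟩

/-- a family of small solutions -/
structure Fam (K : Type) [Field K] [NumberField K] (α : Type) where
  q : α → ℕ
  hq : Function.Injective q
  hp : ∀ a, (q a).Prime
  ho : ∀ a, Odd (q a)
  D : ∀ a, Dat K (q a)
  hno : ∀ a, ∀ x y : (𝓞 K)ˣ,
    (algebraMap (𝓞 K) K (x : 𝓞 K)) ^ q a + (algebraMap (𝓞 K) K (y : 𝓞 K)) ^ q a + 1 ≠ 0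

variable {α : Type} (Φ : Fam K α)

theorem fiber (R : ℝ) (F : Finset α) (a0 : α)
    (h : ∀ a ∈ F, ∀ j w, |((Φ.D a).t 2 w - (Φ.D a).t j w) - ((Φ.D a0).t 2 w - (Φ.D a0).t j w)| ≤ R) :
    F.card ≤ (finite_units (K := K) R).toFinset.card ^ 2 := by
  classical
  set G := (finite_units (K := K) R).toFinset with hG
  have hmem : ∀ a ∈ F, ∀ j, (Φ.D a).un j * ((Φ.D a0).un j)⁻¹ ∈ G := by
    intro a ha j
    rw [hG, Set.Finite.mem_toFinset]
    intro w
    have hne : ∀ u : (𝓞 K)ˣ, 0 < w (algebraMap (𝓞 K) K (u : 𝓞 K)) := fun u =>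
      InfinitePlace.pos_iff.2 (RingOfIntegers.coe_ne_zero_iff.2 (Units.ne_zero u))
    have hinv : algebraMap (𝓞 K) K (((((Φ.D a0).un j)⁻¹ : (𝓞 K)ˣ)) : 𝓞 K) =
        (algebraMap (𝓞 K) K ((Φ.D a0).un j : 𝓞 K))⁻¹ := by
      apply eq_inv_of_mul_eq_one_left
      rw [← map_mul, Units.inv_mul, map_one]
    rw [Units.val_mul, map_mul, map_mul, hinv, map_inv₀,
      Real.log_mul (hne _).ne' (inv_ne_zero (hne _).ne'), Real.log_inv, Dat.log_un, Dat.log_un]
    exact h a ha j w
  have h1 : F.card ≤ (G ×ˢ G).card := by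
    refine Finset.card_le_card_of_injOn (fun a =>
      ((Φ.D a).un 0 * ((Φ.D a0).un 0)⁻¹, (Φ.D a).un 1 * ((Φ.D a0).un 1)⁻¹)) ?_ ?_
    · intro a ha
      rw [Finset.mem_coe, Finset.mem_product]
      exact ⟨hmem a ha 0, hmem a ha 1⟩
    · intro a _ b _ hab
      by_contra hne
      have e0 : (Φ.D a).un 0 = (Φ.D b).un 0 := mul_right_cancel (congrArg Prod.fst hab)
      have e1 : (Φ.D a).un 1 = (Φ.D b).un 1 := mul_right_cancel (congrArg Prod.snd hab)
      have e2 : (Φ.D a).un 2 = (Φ.D b).un 2 := by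
        apply Units.ext
        apply RingOfIntegers.coe_injective
        change algebraMap (𝓞 K) K _ = algebraMap (𝓞 K) K _
        rw [Dat.un_eq, Dat.un_eq, div_self (Dat.U_ne _ 2), div_self (Dat.U_ne _ 2)]
      obtain ⟨x, y, hxy⟩ := units_of_two (Φ.hp a) (Φ.hp b) (fun h => hne (Φ.hq h)) (Φ.ho a)
        (Φ.ho b) (Φ.D a) (Φ.D b) (by
          intro j
          fin_cases j
          · exact e0
          · exact e1
          · exact e2)
      exact Φ.hno a x y hxy
  rw [Finset.card_product] at h1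
  rw [pow_two]
  exact h1

theorem log2_le : Real.log 2 ≤ 1 := by
  have := Real.log_le_sub_one_of_pos (show (0 : ℝ) < 2 by norm_num)
  linarith

theorem diff_le {p : ℕ} (D : Dat K p) {h : ℝ} (hh : D.ht ≤ h) (i j : Fin 3) (w : InfinitePlace K) :
    |D.t i w - D.t j w| ≤ h + Module.finrank ℚ K + 1 := by
  have h1 := D.t_le i w
  have h2 := D.t_le j w
  have h3 := D.neg_le_t i w
  have h4 := D.neg_le_t j w
  rw [abs_of_nonneg D.ht_nonneg] at h1 h2
  have h5 := log2_le
  have h6 : (Module.finrank ℚ K : ℝ) * Real.log 2 ≤ Module.finrank ℚ K := by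
    have : (0 : ℝ) ≤ Module.finrank ℚ K := Nat.cast_nonneg _
    nlinarith
  rw [abs_le]
  constructor <;> linarith

/-- the number of units -/
noncomputable def nu (K : Type) [Field K] [NumberField K] : ℕ :=
  (finite_units (K := K) (2 * Module.finrank ℚ K + 1)).toFinset.card ^ 2

theorem sum_mult : (∑ w : InfinitePlace K, (w.mult : ℝ)) = Module.finrank ℚ K := by
  rw [← Nat.cast_sum, InfinitePlace.sum_mult_eq]

/-- solutions of small height -/
theorem count_one (E : Finset α) (B : ℝ) (hB : 0 ≤ B) (h : ∀ a ∈ E, (Φ.D a).ht ≤ B) :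
    (E.card : ℝ) ≤ nu K * (2 * (B + Module.finrank ℚ K + 1) + 2) ^
      (2 * Fintype.card (InfinitePlace K)) := by
  classical
  have h1 := cells E (fun a (x : InfinitePlace K × Fin 2) =>
      (Φ.D a).t 2 x.1 - (Φ.D a).t x.2.castSucc x.1) (fun _ => B + Module.finrank ℚ K + 1)
    (fun a ha x => diff_le (Φ.D a) (h a ha) _ _ _) (fun _ => by positivity) (nu K) (by
      intro F hF a0 ha0 hcl
      refine fiber Φ _ F a0 fun a ha j w => ?_
      have hd : (0 : ℝ) ≤ Module.finrank ℚ K := Nat.cast_nonneg _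
      by_cases hj : j = 2
      · subst hj
        rw [sub_self, sub_self, sub_zero, abs_zero]
        positivity
      · obtain ⟨i, hi⟩ : ∃ i : Fin 2, i.castSucc = j := by
          revert hj
          revert j
          decide
        have h2 := hcl a ha (w, i)
        rw [← hi]
        simp only at h2
        linarith)
  rw [Finset.prod_const, Finset.card_univ, Fintype.card_prod, Fintype.card_fin, mul_comm _ 2] at h1
  exact h1

theorem card_sub {W : Type} [Fintype W] [DecidableEq W] (w1 w2 : W) (h : w1 ≠ w2) :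
    Fintype.card {w // w ≠ w1 ∧ w ≠ w2} = Fintype.card W - 2 := by
  rw [Fintype.card_subtype]
  have h1 : (Finset.univ.filter fun w : W => w ≠ w1 ∧ w ≠ w2) = (Finset.univ.erase w1).erase w2 := by
    ext w
    simp only [Finset.mem_filter, Finset.mem_univ, true_and, Finset.mem_erase]
    tauto
  rw [h1, Finset.card_erase_of_mem, Finset.card_erase_of_mem (Finset.mem_univ _), Finset.card_univ]
  · omega
  · rw [Finset.mem_erase]
    exact ⟨Ne.symm h, Finset.mem_univ _⟩

/-- solutions with a given pattern -/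
theorem count_two (E : Finset α) (Y P : ℝ) (hP : 1 ≤ P) (hY : 0 ≤ Y)
    (h : ∀ a ∈ E, (Φ.D a).ht ≤ Y)
    (hqP : ∀ a ∈ E, (Φ.q a : ℝ) ≤ P) (s : InfinitePlace K → Fin 3) (w1 w2 : InfinitePlace K)
    (h12 : s w1 ≠ s w2) (hs : ∀ a ∈ E, ∀ w i, i ≠ s w → (Φ.D a).Good i w) :
    (E.card : ℝ) ≤ nu K * ((2 * Real.log (16 * P) + 2) ^ Fintype.card (InfinitePlace K) *
      (2 * (Y + Module.finrank ℚ K + 1) + 2) ^ (Fintype.card (InfinitePlace K) - 2)) := by
  classical
  have hw12 : w1 ≠ w2 := fun h => h12 (by rw [h])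
  have hL : 0 ≤ Real.log (16 * P) := Real.log_nonneg (by linarith)
  have h1 := cells E (fun a (x : InfinitePlace K ⊕ {w // w ≠ w1 ∧ w ≠ w2}) =>
      match x with
      | Sum.inl w => (Φ.D a).t (s w + 1) w - (Φ.D a).t (s w + 2) w
      | Sum.inr w => (Φ.D a).t (s w) w - (Φ.D a).t (s w + 1) w)
    (fun x => match x with
      | Sum.inl _ => Real.log (16 * P)
      | Sum.inr _ => Y + Module.finrank ℚ K + 1)
    (by
      intro a ha x
      rcases x with w | w
      · have hne : ∀ k : Fin 3, k + 1 ≠ k ∧ k + 2 ≠ k := by decide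
        have g1 := hs a ha w _ (hne (s w)).1
        have g2 := hs a ha w _ (hne (s w)).2
        have g3 := (Φ.D a).neg_le_t (s w + 1) w
        have g4 := (Φ.D a).neg_le_t (s w + 2) w
        unfold Dat.Good at g1 g2
        have hq0 : (0 : ℝ) < Φ.q a := by exact_mod_cast (Φ.hp a).pos
        have g5 : Real.log (8 * Φ.q a) + Real.log 2 ≤ Real.log (16 * P) := by
          rw [← Real.log_mul (by positivity) two_ne_zero]
          apply Real.log_le_log (by positivity)
          have := hqP a ha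
          linarith
        show |(Φ.D a).t (s w + 1) w - (Φ.D a).t (s w + 2) w| ≤ Real.log (16 * P)
        rw [abs_le]
        constructor <;> linarith
      · exact diff_le (Φ.D a) (h a ha) _ _ _)
    (by
      intro x
      rcases x with w | w
      · exact hL
      · show 0 ≤ Y + Module.finrank ℚ K + 1
        positivity) (nu K) (by
      intro F hF a0 ha0 hcl
      refine fiber Φ _ F a0 fun a ha j w => ?_
      have hm : ∀ w : InfinitePlace K, (1 : ℝ) ≤ w.mult := by
        intro w
        have : 1 ≤ w.mult := InfinitePlace.mult_pos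
        exact_mod_cast this
      have hmain := close_all (fun w : InfinitePlace K => (w.mult : ℝ)) hm
        (fun i w => (Φ.D a).t i w - (Φ.D a0).t i w) (by
          intro i j
          have e1 := (Φ.D a).sum_t i
          have e2 := (Φ.D a).sum_t j
          have e3 := (Φ.D a0).sum_t i
          have e4 := (Φ.D a0).sum_t j
          have e5 : ∑ w : InfinitePlace K, (w.mult : ℝ) * (((Φ.D a).t i w - (Φ.D a0).t i w) -
              ((Φ.D a).t j w - (Φ.D a0).t j w)) =
              ((∑ w : InfinitePlace K, (w.mult : ℝ) * (Φ.D a).t i w) -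
              (∑ w : InfinitePlace K, (w.mult : ℝ) * (Φ.D a0).t i w)) -
              ((∑ w : InfinitePlace K, (w.mult : ℝ) * (Φ.D a).t j w) -
              (∑ w : InfinitePlace K, (w.mult : ℝ) * (Φ.D a0).t j w)) := by
            rw [← Finset.sum_sub_distrib, ← Finset.sum_sub_distrib, ← Finset.sum_sub_distrib]
            exact Finset.sum_congr rfl fun w _ => by ring
          rw [e5, e1, e2, e3, e4]
          ring) s w1 w2 h12 (by
          intro w
          have h2 := hcl a ha (Sum.inl w)
          have e : ((Φ.D a).t (s w + 1) w - (Φ.D a0).t (s w + 1) w) -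
              ((Φ.D a).t (s w + 2) w - (Φ.D a0).t (s w + 2) w) =
              ((Φ.D a).t (s w + 1) w - (Φ.D a).t (s w + 2) w) -
              ((Φ.D a0).t (s w + 1) w - (Φ.D a0).t (s w + 2) w) := by ring
          rw [e]
          exact h2) (by
          intro w g1 g2
          have h2 := hcl a ha (Sum.inr ⟨w, g1, g2⟩)
          have e : ((Φ.D a).t (s w) w - (Φ.D a0).t (s w) w) -
              ((Φ.D a).t (s w + 1) w - (Φ.D a0).t (s w + 1) w) =
              ((Φ.D a).t (s w) w - (Φ.D a).t (s w + 1) w) -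
              ((Φ.D a0).t (s w) w - (Φ.D a0).t (s w + 1) w) := by ring
          rw [e]
          exact h2) 2 j w
      rw [sum_mult] at hmain
      have e : ((Φ.D a).t 2 w - (Φ.D a).t j w) - ((Φ.D a0).t 2 w - (Φ.D a0).t j w) =
          ((Φ.D a).t 2 w - (Φ.D a0).t 2 w) - ((Φ.D a).t j w - (Φ.D a0).t j w) := by ring
      rw [e]
      exact hmain)
  rw [Fintype.prod_sum_type] at h1
  simp only [Finset.prod_const, Finset.card_univ] at h1
  rw [card_sub w1 w2 hw12] at h1
  exact h1

/-- the number of all small solutions -/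
theorem count_all (E : Finset α) (Y P : ℝ) (hP : 1 ≤ P) (hY : 0 ≤ Y)
    (h : ∀ a ∈ E, (Φ.D a).ht ≤ Y) (hqP : ∀ a ∈ E, (Φ.q a : ℝ) ≤ P) :
    (E.card : ℝ) ≤ nu K * (2 * (Module.finrank ℚ K * Real.log (8 * P) +
        Module.finrank ℚ K + 1) + 2) ^ (2 * Fintype.card (InfinitePlace K)) +
      3 ^ Fintype.card (InfinitePlace K) *
        (nu K * ((2 * Real.log (16 * P) + 2) ^ Fintype.card (InfinitePlace K) *
        (2 * (Y + Module.finrank ℚ K + 1) + 2) ^ (Fintype.card (InfinitePlace K) - 2))) := by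
  classical
  obtain ⟨Q, hQ⟩ : ∃ Q : α → Prop, Q = fun a => ∃ j, ∀ w, (Φ.D a).Good j w := ⟨_, rfl⟩
  have hsplit := Finset.card_filter_add_card_filter_not (s := E) Q
  have h1 : ((E.filter Q).card : ℝ) ≤ nu K * (2 * (Module.finrank ℚ K * Real.log (8 * P) +
        Module.finrank ℚ K + 1) + 2) ^ (2 * Fintype.card (InfinitePlace K)) := by
    refine count_one Φ _ _ (mul_nonneg (Nat.cast_nonneg _) (Real.log_nonneg (by linarith))) ?_
    intro a ha
    rw [Finset.mem_filter, hQ] at ha
    obtain ⟨haE, j, hj⟩ := ha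
    refine ((Φ.D a).ht_le_of_good j hj).trans ?_
    apply mul_le_mul_of_nonneg_left _ (Nat.cast_nonneg _)
    have hq0 : (0 : ℝ) < Φ.q a := by exact_mod_cast (Φ.hp a).pos
    apply Real.log_le_log (by positivity)
    have := hqP a haE
    linarith
  obtain ⟨T, hT⟩ : ∃ T : ℝ, T = nu K * ((2 * Real.log (16 * P) + 2) ^ Fintype.card (InfinitePlace K) *
        (2 * (Y + Module.finrank ℚ K + 1) + 2) ^ (Fintype.card (InfinitePlace K) - 2)) := ⟨_, rfl⟩
  have hL : 0 ≤ Real.log (16 * P) := Real.log_nonneg (by linarith)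
  have hT0 : 0 ≤ T := by rw [hT]; positivity
  choose s hs using fun a => exists_s (Φ.D a) (Φ.hp a).one_le (Φ.ho a)
  have h2 : ((E.filter fun a => ¬ Q a).card : ℝ) ≤ 3 ^ Fintype.card (InfinitePlace K) * T := by
    have h3 := Finset.card_eq_sum_card_fiberwise (f := s) (s := E.filter fun a => ¬ Q a)
      (t := Finset.univ) (fun _ _ => by simp)
    rw [h3]
    push_cast
    have h4 : ∀ σ ∈ (Finset.univ : Finset (InfinitePlace K → Fin 3)),
        ((((E.filter fun a => ¬ Q a).filter fun a => s a = σ).card : ℕ) : ℝ) ≤ T := by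
      intro σ _
      rcases ((E.filter fun a => ¬ Q a).filter fun a => s a = σ).eq_empty_or_nonempty with
        h0 | ⟨a0, ha0⟩
      · rw [h0]; simpa using hT0
      · rw [Finset.mem_filter, Finset.mem_filter, hQ] at ha0
        obtain ⟨⟨-, hno⟩, hσ⟩ := ha0
        push Not at hno
        obtain ⟨w1, hw1⟩ := hno 0
        obtain ⟨w2, hw2⟩ := hno 1
        have g1 : σ w1 = 0 := by
          by_contra hne
          exact hw1 (hs a0 w1 0 (by rw [hσ]; exact Ne.symm hne))
        have g2 : σ w2 = 1 := by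
          by_contra hne
          exact hw2 (hs a0 w2 1 (by rw [hσ]; exact Ne.symm hne))
        rw [hT]
        refine count_two Φ _ Y P hP hY (fun a ha => ?_) (fun a ha => ?_) σ w1 w2 ?_ fun a ha w i hi => ?_
        · rw [Finset.mem_filter, Finset.mem_filter] at ha
          exact h a ha.1.1
        · rw [Finset.mem_filter, Finset.mem_filter] at ha
          exact hqP a ha.1.1
        · rw [g1, g2]
          decide
        · rw [Finset.mem_filter] at ha
          exact hs a w i (by rw [ha.2]; exact hi)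
    refine (Finset.sum_le_sum h4).trans ?_
    rw [Finset.sum_const, Finset.card_univ, Fintype.card_fun, Fintype.card_fin, nsmul_eq_mul]
    push_cast
    exact le_rfl
  have h5 : (E.card : ℝ) = ((E.filter Q).card : ℝ) + ((E.filter fun a => ¬ Q a).card : ℝ) := by
    exact_mod_cast hsplit.symm
  rw [h5, ← hT]
  linarith

end Run7.h879.Sp
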