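import Pool.Agent.W7.FH.Gm

/-!
Solutions of Fermat's equation in the second case are very large.
-/

set_option autoImplicit false

namespace Run7.h879.Second

open NumberField IsDedekindDomain Height Pool.Agent.W7.FH

variable {K : Type} [Field K] [NumberField K]

/-- a prime above `p` which divides one of `a, b, c` more than the others -/
theorem key {p : ℕ} (hp : p.Prime) (hd : Module.finrank ℚ K + 1 < p) {a b c : K}
    (ha : a ≠ 0) (hb : b ≠ 0) (hc : c ≠ 0) (h : a ^ p + b ^ p + c ^ p = 0)
    (v : FinitePlace K) (hvp : v (p : K) < 1) (hlt : v c < mx v a b c) :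
    (p : ℝ) ^ p ≤ (2 * p) ^ Module.finrank ℚ K * mulHeight ![a, b, c] := by
  have hdpos : 0 < Module.finrank ℚ K := Module.finrank_pos
  have hodd : Odd p := hp.odd_of_ne_two (by omega)
  have hpR : (0 : ℝ) < p := by exact_mod_cast hp.pos
  set M := mx v a b c with hM
  have hM0 : 0 < M := lt_of_le_of_lt (apply_nonneg _ _) hlt
  have haM : v a ≤ M := (le_max_left _ _).trans (le_max_left _ _)
  have hbM : v b ≤ M := (le_max_right _ _).trans (le_max_left _ _)
  have h1 : v (a + b) < M := by
    have h2 := add_pow_prime_eq hp a b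
    have h3 : v ((a + b) ^ p) < M ^ p := by
      rw [h2]
      refine lt_of_le_of_lt (FinitePlace.add_le v _ _) (max_lt ?_ ?_)
      · have e : a ^ p + b ^ p = -(c ^ p) := by linear_combination h
        rw [e, map_neg_eq_map, map_pow]
        exact pow_lt_pow_left₀ hlt (apply_nonneg _ _) hp.ne_zero
      · have h4 : v (∑ k ∈ Finset.Ioo 0 p, a ^ (k - 1) * b ^ (p - k - 1) *
            ((p.choose k / p : ℕ) : K)) ≤ M ^ (p - 2) := by
          by_contra hcon
          push Not at hcon
          refine lt_irrefl _ (sum_lt v (lt_of_le_of_lt (by positivity) hcon) (Finset.Ioo 0 p)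
            (fun k => a ^ (k - 1) * b ^ (p - k - 1) * ((p.choose k / p : ℕ) : K)) ?_)
          intro k hk
          rw [Finset.mem_Ioo] at hk
          refine lt_of_le_of_lt ?_ hcon
          rw [map_mul, map_mul, map_pow, map_pow]
          have h6 := natCast_le_one v (p.choose k / p)
          calc v a ^ (k - 1) * v b ^ (p - k - 1) * v ((p.choose k / p : ℕ) : K)
              ≤ M ^ (k - 1) * M ^ (p - k - 1) * 1 := by
                apply mul_le_mul _ h6 (apply_nonneg _ _) (by positivity)
                exact mul_le_mul (pow_le_pow_left₀ (apply_nonneg _ _) haM _)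
                  (pow_le_pow_left₀ (apply_nonneg _ _) hbM _)
                  (pow_nonneg (apply_nonneg _ _) _) (by positivity)
            _ = M ^ (p - 2) := by
                rw [mul_one, ← pow_add]
                congr 1
                omega
        rw [map_mul, map_mul, map_mul]
        have h7 : M ^ p = M * M * M ^ (p - 2) := by
          rw [← pow_two, ← pow_add]
          congr 1
          omega
        calc v (p : K) * v a * v b * v (∑ k ∈ Finset.Ioo 0 p, a ^ (k - 1) * b ^ (p - k - 1) *
                ((p.choose k / p : ℕ) : K)) ≤ v (p : K) * M * M * M ^ (p - 2) := by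
              apply mul_le_mul _ h4 (apply_nonneg _ _) (by positivity)
              apply mul_le_mul _ hbM (apply_nonneg _ _) (by positivity)
              exact mul_le_mul_of_nonneg_left haM (apply_nonneg _ _)
          _ = v (p : K) * M ^ p := by rw [h7]; ring
          _ < 1 * M ^ p := mul_lt_mul_of_pos_right hvp (by positivity)
          _ = M ^ p := one_mul _
    rw [map_pow] at h3
    exact lt_of_pow_lt_pow_left₀ p hM0.le h3
  have hpp : (p : ℝ) ^ p / (p : ℝ) ^ Module.finrank ℚ K ≤ (p : ℝ) ^ p := by
    apply div_le_self (by positivity)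
    exact one_le_pow₀ (by exact_mod_cast hp.one_le)
  have h2 := local_small v hp.two_le (fun q hq hqp => by
      rw [(Nat.prime_dvd_prime_iff_eq hq hp).mp hqp]; exact hd) hb h h1
    (Q := (p : ℝ) ^ p / (p : ℝ) ^ Module.finrank ℚ K) (by
      refine hpp.trans (pow_le_pow_left₀ hpR.le ?_ _)
      exact_mod_cast nrm_ge v hp hvp) (by
      rw [hp.minFac_eq, div_mul_cancel₀ _ (by positivity)])
  have h3 := height_ge ha hb hc (add_ne_zero_of_fermat hodd hc h) v (by positivity) h2
  rw [div_le_iff₀ (by positivity)] at h3
  rw [mul_pow]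
  linarith

theorem main {p : ℕ} (hp : p.Prime) (hd : Module.finrank ℚ K + 1 < p) {a b c : K}
    (ha : a ≠ 0) (hb : b ≠ 0) (hc : c ≠ 0) (h : a ^ p + b ^ p + c ^ p = 0)
    (v : HeightOneSpectrum (𝓞 K)) (hvp : ((p : ℕ) : 𝓞 K) ∈ v.asIdeal)
    (hne : ¬ (v.valuation K a = v.valuation K b ∧ v.valuation K b = v.valuation K c)) :
    (p : ℝ) ^ p ≤ (2 * p) ^ Module.finrank ℚ K * mulHeight ![a, b, c] := by
  set w : FinitePlace K := FinitePlace.mk v with hw
  have hval : ∀ x : K, w x = WithZeroMulInt.toNNReal (HeightOneSpectrum.absNorm_ne_zero v)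
      (v.valuation K x) := by
    intro x
    rw [hw, FinitePlace.mk_apply, FinitePlace.norm_embedding, HeightOneSpectrum.adicAbv_def]
  have hinj : ∀ x y : K, w x = w y → v.valuation K x = v.valuation K y := by
    intro x y hxy
    rw [hval, hval] at hxy
    exact (WithZeroMulInt.toNNReal_strictMono
      (HeightOneSpectrum.one_lt_absNorm_nnreal v)).injective (NNReal.coe_injective hxy)
  have hvp' : w (p : K) < 1 := by
    have h1 := (FinitePlace.norm_lt_one_iff_mem K v ((p : ℕ) : 𝓞 K)).mpr hvp
    rw [map_natCast] at h1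
    rwa [hw, FinitePlace.mk_apply]
  by_cases h1 : w c < mx w a b c
  · exact key hp hd ha hb hc h w hvp' h1
  by_cases h2 : w a < mx w a b c
  · have h3 := key hp hd hb hc ha (by linear_combination h) w hvp' (by rw [mx_rot]; exact h2)
    rwa [mulHeight_rot] at h3
  by_cases h3 : w b < mx w a b c
  · have h4 := key hp hd hc ha hb (by linear_combination h) w hvp'
      (by rw [mx_rot, mx_rot]; exact h3)
    rwa [mulHeight_rot, mulHeight_rot] at h4
  exfalso
  push Not at h1 h2 h3
  apply hne
  have e1 : w a = mx w a b c := le_antisymm ((le_max_left _ _).trans (le_max_left _ _)) h2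
  have e2 : w b = mx w a b c := le_antisymm ((le_max_right _ _).trans (le_max_left _ _)) h3
  have e3 : w c = mx w a b c := le_antisymm (le_max_right _ _) h1
  exact ⟨hinj _ _ (e1.trans e2.symm), hinj _ _ (e2.trans e3.symm)⟩

end Run7.h879.Second
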