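import Pool.Agent.W7.FH.Gm
import Pool.Agent.R803.CM1

/-!
Small solutions of Fermat's equation: archimedean estimates.
-/

set_option autoImplicit false

namespace Run7.h879.Sp

open NumberField IsDedekindDomain Height Pool.Agent.W7.FH

lemma norm_pow_sub_one (η : ℂ) (n : ℕ) : ‖(1 + η) ^ n - 1‖ ≤ (1 + ‖η‖) ^ n - 1 := by
  induction n with
  | zero => simp
  | succ n ih =>
    have h1 : (1 + η) ^ (n + 1) - 1 = (1 + η) * ((1 + η) ^ n - 1) + η := by ring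
    have h2 : ‖1 + η‖ ≤ 1 + ‖η‖ := by
      refine (norm_add_le _ _).trans ?_
      rw [norm_one]
    have h3 : 0 ≤ (1 + ‖η‖) ^ n - 1 := (norm_nonneg _).trans ih
    calc ‖(1 + η) ^ (n + 1) - 1‖ ≤ ‖(1 + η) * ((1 + η) ^ n - 1)‖ + ‖η‖ := by
          rw [h1]; exact norm_add_le _ _
      _ ≤ (1 + ‖η‖) * ((1 + ‖η‖) ^ n - 1) + ‖η‖ := by
          rw [norm_mul]
          gcongr
      _ = _ := by ring

lemma pow_close {p : ℕ} (hp : 1 ≤ p) {η : ℂ} (h : ‖η‖ < 1 / (7 * p)) :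
    ‖(1 + η) ^ p - 1‖ < 1 / 2 := by
  have hpR : (1 : ℝ) ≤ p := by exact_mod_cast hp
  refine (norm_pow_sub_one η p).trans_lt ?_
  have h1 : 1 + ‖η‖ ≤ Real.exp ‖η‖ := by
    have := Real.add_one_le_exp ‖η‖
    linarith
  have h2 : (1 + ‖η‖) ^ p ≤ Real.exp (p * ‖η‖) := by
    calc (1 + ‖η‖) ^ p ≤ Real.exp ‖η‖ ^ p := pow_le_pow_left₀ (by positivity) h1 _
      _ = _ := by rw [← Real.exp_nat_mul]
  have h3 : (p : ℝ) * ‖η‖ ≤ 1 / 7 := by
    calc (p : ℝ) * ‖η‖ ≤ p * (1 / (7 * p)) := by gcongr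
      _ = 1 / 7 := by field_simp
  have h4 : Real.exp (p * ‖η‖) ≤ Real.exp (1 / 7) := Real.exp_le_exp.2 h3
  have h5 : Real.exp (1 / 7) < 3 / 2 := by
    have h6 := Real.add_one_le_exp (-(1 / 7 : ℝ))
    have h7 : Real.exp (1 / 7) * Real.exp (-(1 / 7)) = 1 := by
      rw [← Real.exp_add]
      simp
    have h8 := Real.exp_pos (1 / 7 : ℝ)
    nlinarith
  linarith

/-- not two of the sums are small -/
lemma two_big {p : ℕ} (hp : 1 ≤ p) (hodd : Odd p) {a b c : ℂ} (ha0 : a ≠ 0)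
    (h : a ^ p + b ^ p + c ^ p = 0) {M : ℝ} (hM : 0 < M)
    (hmax : M = ‖a‖ ∨ M = ‖b‖ ∨ M = ‖c‖) :
    ¬ (‖a + b‖ < M / (8 * p) ∧ ‖a + c‖ < M / (8 * p)) := by
  rintro ⟨h1, h2⟩
  have hpR : (1 : ℝ) ≤ p := by exact_mod_cast hp
  have hM8 : M / (8 * p) ≤ M / 8 := by
    apply div_le_div_of_nonneg_left hM.le (by norm_num)
    linarith
  have hn : ∀ x y : ℂ, ‖y‖ ≤ ‖x‖ + ‖x + y‖ := by
    intro x y
    calc ‖y‖ = ‖(x + y) - x‖ := by rw [add_sub_cancel_left]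
      _ ≤ ‖x + y‖ + ‖x‖ := norm_sub_le _ _
      _ = _ := add_comm _ _
  have ha : 7 * M / 8 ≤ ‖a‖ := by
    rcases hmax with h3 | h3 | h3
    · rw [← h3]; linarith
    · have := hn a b
      linarith
    · have := hn a c
      linarith
  have haN : 0 < ‖a‖ := norm_pos_iff.2 ha0
  have key : ∀ z : ℂ, ‖a + z‖ < M / (8 * p) → ∃ η : ℂ, ‖η‖ < 1 / (7 * p) ∧ z = -(a * (1 + η)) := by
    intro z hz
    refine ⟨-(a + z) / a, ?_, ?_⟩
    · rw [norm_div, norm_neg, div_lt_iff₀ haN]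
      refine hz.trans_le ?_
      calc M / (8 * p) = 1 / (7 * p) * (7 * M / 8) := by field_simp
        _ ≤ 1 / (7 * p) * ‖a‖ := by gcongr
    · field_simp
      ring
  obtain ⟨η, hη, hb⟩ := key b h1
  obtain ⟨θ, hθ, hc⟩ := key c h2
  have e1 : b ^ p = -(a ^ p * (1 + η) ^ p) := by rw [hb, hodd.neg_pow, mul_pow]
  have e2 : c ^ p = -(a ^ p * (1 + θ) ^ p) := by rw [hc, hodd.neg_pow, mul_pow]
  have e3 : ((1 + η) ^ p - 1) + ((1 + θ) ^ p - 1) = -1 := by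
    have hap : a ^ p ≠ 0 := pow_ne_zero _ ha0
    apply mul_left_cancel₀ hap
    rw [e1, e2] at h
    linear_combination -h
  have h3 := pow_close hp hη
  have h4 := pow_close hp hθ
  have h5 : ‖((1 + η) ^ p - 1) + ((1 + θ) ^ p - 1)‖ < 1 := by
    refine (norm_add_le _ _).trans_lt ?_
    linarith
  rw [e3, norm_neg, norm_one] at h5
  exact lt_irrefl _ h5

end Run7.h879.Sp
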