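import Pool.Agent.Run7.h879.Sp1

/-!
Small solutions of Fermat's equation: the local data.
-/

set_option autoImplicit false

namespace Run7.h879.Sp

open NumberField IsDedekindDomain Height Pool.Agent.W7.FH

variable {K : Type} [Field K] [NumberField K]

/-- the maximum at an infinite place -/
noncomputable def mi (w : InfinitePlace K) (a b c : K) : ℝ := max (max (w a) (w b)) (w c)

lemma mi_pos (w : InfinitePlace K) {a b c : K} (ha : a ≠ 0) : 0 < mi w a b c :=
  lt_of_lt_of_le (InfinitePlace.pos_iff.2 ha) ((le_max_left _ _).trans (le_max_left _ _))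

/-- the height in terms of an element which is locally of maximal absolute value -/
theorem height_eq {a b c U : K} (ha : a ≠ 0) (hb : b ≠ 0) (hc : c ≠ 0) (hU : U ≠ 0)
    (h : ∀ v : FinitePlace K, v U = mx v a b c) :
    Real.log (mulHeight ![a, b, c]) =
      ∑ w : InfinitePlace K, (w.mult : ℝ) * (Real.log (mi w a b c) - Real.log (w U)) := by
  have hx : ![a, b, c] ≠ 0 := fun h0 => ha (congrFun h0 0)
  have h1 := NumberField.mulHeight_eq (K := K) hx
  have h2 : ∏ᶠ v : FinitePlace K, ⨆ i : Fin 3, v (![a, b, c] i) = ∏ᶠ v : FinitePlace K, v U := by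
    refine finprod_congr fun v => ?_
    rw [iSup_three v a b c, h v]
    rfl
  have h3 : ∏ w : InfinitePlace K, (⨆ i : Fin 3, w (![a, b, c] i)) ^ w.mult =
      ∏ w : InfinitePlace K, mi w a b c ^ w.mult := by
    refine Finset.prod_congr rfl fun w _ => ?_
    rw [iSup_three w a b c]
    rfl
  rw [h2, h3] at h1
  have hpf := prod_abs_eq_one hU
  have hm : ∀ w : InfinitePlace K, mi w a b c ^ w.mult ≠ 0 := fun w =>
    (pow_pos (mi_pos w ha) _).ne'
  have hw : ∀ w : InfinitePlace K, w U ^ w.mult ≠ 0 := fun w =>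
    (pow_pos (InfinitePlace.pos_iff.2 hU) _).ne'
  have hP : ∏ w : InfinitePlace K, w U ^ w.mult ≠ 0 := Finset.prod_ne_zero_iff.2 fun w _ => hw w
  have h4 : mulHeight ![a, b, c] =
      (∏ w : InfinitePlace K, mi w a b c ^ w.mult) / ∏ w : InfinitePlace K, w U ^ w.mult := by
    rw [h1, eq_div_iff hP, mul_assoc, mul_comm (∏ᶠ v : FinitePlace K, v U), hpf, mul_one]
  rw [h4, Real.log_div (Finset.prod_ne_zero_iff.2 fun w _ => hm w) hP,
    Real.log_prod fun w _ => hm w, Real.log_prod fun w _ => hw w, ← Finset.sum_sub_distrib]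
  refine Finset.sum_congr rfl fun w _ => ?_
  rw [Real.log_pow, Real.log_pow]
  ring

/-- at an infinite place not two of the sums are small -/
lemma two_big_place {p : ℕ} (hp : 1 ≤ p) (hodd : Odd p) (w : InfinitePlace K) {a b c : K}
    (ha0 : a ≠ 0) (h : a ^ p + b ^ p + c ^ p = 0) :
    ¬ (w (a + b) < mi w a b c / (8 * p) ∧ w (c + a) < mi w a b c / (8 * p)) := by
  have hn : ∀ x : K, w x = ‖w.embedding x‖ := fun x => (InfinitePlace.norm_embedding_eq w x).symm
  have h1 := congrArg w.embedding h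
  rw [map_add, map_add, map_pow, map_pow, map_pow, map_zero] at h1
  have ha1 : w.embedding a ≠ 0 := (map_ne_zero _).2 ha0
  have hmax : mi w a b c = ‖w.embedding a‖ ∨ mi w a b c = ‖w.embedding b‖ ∨
      mi w a b c = ‖w.embedding c‖ := by
    unfold mi
    rw [← hn, ← hn, ← hn]
    rcases max_choice (max (w a) (w b)) (w c) with h2 | h2
    · rcases max_choice (w a) (w b) with h3 | h3
      · left; rw [h2, h3]
      · right; left; rw [h2, h3]
    · right; right; exact h2
  have h2 := two_big hp hodd ha1 h1 (mi_pos w ha0) hmax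
  rw [hn, hn, map_add, map_add, add_comm (w.embedding c)]
  exact h2

lemma mi_rot (w : InfinitePlace K) (a b c : K) : mi w b c a = mi w a b c := by
  unfold mi
  rw [max_comm (max (w b) (w c)), ← max_assoc]

/-- the three sums -/
def Us (a b c : K) : Fin 3 → K := ![a + b, b + c, c + a]

/-- the data of a small solution -/
structure Dat (K : Type) [Field K] [NumberField K] (p : ℕ) where
  a : K
  b : K
  c : K
  ha : a ≠ 0
  hb : b ≠ 0
  hc : c ≠ 0
  h : a ^ p + b ^ p + c ^ p = 0
  hU : ∀ v : FinitePlace K, ∀ j, v (Us a b c j) = mx v a b c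
  hU0 : ∀ j, Us a b c j ≠ 0

/-- existence of the data -/
theorem exists_dat {p : ℕ} (hp : p.Prime) (h5 : 5 ≤ p) (hd : Module.finrank ℚ K + 1 < p)
    (hd2 : 2 * Module.finrank ℚ K ≤ p) {a b c : K}
    (ha : a ≠ 0) (hb : b ≠ 0) (hc : c ≠ 0) (h : a ^ p + b ^ p + c ^ p = 0)
    (hH : 2 ^ Module.finrank ℚ K * mulHeight ![a, b, c] < 2 ^ p) :
    ∃ D : Dat K p, D.a = a ∧ D.b = b ∧ D.c = c := by
  have hdpos : 0 < Module.finrank ℚ K := Module.finrank_pos
  have hodd : Odd p := hp.odd_of_ne_two (by omega)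
  have hunits := units_of_small (by omega) (fun q hq hqp => by
      rw [(Nat.prime_dvd_prime_iff_eq hq hp).mp hqp]; exact hd) ha hb hc h (Q := (2 : ℝ) ^ p)
    (by positivity)
    (fun w => by
      apply pow_le_pow_left₀ (by norm_num)
      have := one_lt_nrm w
      exact_mod_cast this) (by
      rw [hp.minFac_eq]
      have := pow_bound (d := Module.finrank ℚ K) (l := p) (n := p) (by omega) hd2 (by omega)
        dvd_rfl
      exact_mod_cast this) hH
  refine ⟨⟨a, b, c, ha, hb, hc, h, fun v j => ?_, fun j => ?_⟩, rfl, rfl, rfl⟩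
  · fin_cases j
    · exact (hunits v).1
    · exact (hunits v).2.1
    · exact (hunits v).2.2
  · fin_cases j
    · exact add_ne_zero_of_fermat hodd hc h
    · exact add_ne_zero_of_fermat hodd ha (by linear_combination h)
    · exact add_ne_zero_of_fermat hodd hb (by linear_combination h)

namespace Dat

variable {p : ℕ} (D : Dat K p)

/-- the sums -/
def U (j : Fin 3) : K := Us D.a D.b D.c j

/-- the height -/
noncomputable def ht : ℝ := Real.log (mulHeight ![D.a, D.b, D.c])

/-- the logarithmic distance to the maximum -/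
noncomputable def t (j : Fin 3) (w : InfinitePlace K) : ℝ :=
  Real.log (mi w D.a D.b D.c) - Real.log (w (D.U j))

theorem U_ne (j : Fin 3) : D.U j ≠ 0 := D.hU0 j

theorem sum_t (j : Fin 3) : ∑ w : InfinitePlace K, (w.mult : ℝ) * D.t j w = D.ht :=
  (height_eq D.ha D.hb D.hc (D.U_ne j) fun v => D.hU v j).symm

theorem neg_le_t (j : Fin 3) (w : InfinitePlace K) : -Real.log 2 ≤ D.t j w := by
  have hM := mi_pos w (b := D.b) (c := D.c) D.ha
  have hU : 0 < w (D.U j) := InfinitePlace.pos_iff.2 (D.U_ne j)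
  have h1 : w (D.U j) ≤ 2 * mi w D.a D.b D.c := by
    have e1 : w D.a ≤ mi w D.a D.b D.c := (le_max_left _ _).trans (le_max_left _ _)
    have e2 : w D.b ≤ mi w D.a D.b D.c := (le_max_right _ _).trans (le_max_left _ _)
    have e3 : w D.c ≤ mi w D.a D.b D.c := le_max_right _ _
    have e4 : ∀ x y : K, w (x + y) ≤ w x + w y := fun x y => w.1.add_le x y
    fin_cases j
    · exact (e4 D.a D.b).trans (by linarith)
    · exact (e4 D.b D.c).trans (by linarith)
    · exact (e4 D.c D.a).trans (by linarith)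
  have h2 := Real.log_le_log hU h1
  rw [Real.log_mul two_ne_zero hM.ne'] at h2
  unfold t
  linarith

theorem t_le (j : Fin 3) (w : InfinitePlace K) :
    D.t j w ≤ |D.ht| + Module.finrank ℚ K * Real.log 2 := by
  classical
  have hl2 : 0 < Real.log 2 := Real.log_pos (by norm_num)
  rcases le_or_gt (D.t j w) 0 with h0 | h0
  · exact h0.trans (by positivity)
  have h1 := D.sum_t j
  rw [← Finset.add_sum_erase _ _ (Finset.mem_univ w)] at h1
  have h2 : -(∑ w' ∈ Finset.univ.erase w, (w'.mult : ℝ)) * Real.log 2 ≤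
      ∑ w' ∈ Finset.univ.erase w, (w'.mult : ℝ) * D.t j w' := by
    rw [neg_mul, Finset.sum_mul, ← Finset.sum_neg_distrib]
    refine Finset.sum_le_sum fun w' _ => ?_
    have := D.neg_le_t j w'
    have h3 : (0 : ℝ) ≤ w'.mult := Nat.cast_nonneg _
    nlinarith
  have h3 : (∑ w' ∈ Finset.univ.erase w, (w'.mult : ℝ)) ≤ Module.finrank ℚ K := by
    have h4 : (∑ w' : InfinitePlace K, (w'.mult : ℝ)) = Module.finrank ℚ K := by
      rw [← Nat.cast_sum, InfinitePlace.sum_mult_eq]
    rw [← h4]
    exact Finset.sum_le_sum_of_subset_of_nonneg (Finset.erase_subset _ _)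
      fun _ _ _ => Nat.cast_nonneg _
  have h4 : (1 : ℝ) ≤ w.mult := by
    have : 1 ≤ w.mult := InfinitePlace.mult_pos
    exact_mod_cast this
  have h5 := le_abs_self D.ht
  nlinarith

/-- the index `j` is good at the place `w` -/
def Good (j : Fin 3) (w : InfinitePlace K) : Prop := D.t j w ≤ Real.log (8 * p)

theorem good_or (hp : 1 ≤ p) (hodd : Odd p) (w : InfinitePlace K) (i j : Fin 3) (hij : i ≠ j) :
    D.Good i w ∨ D.Good j w := by
  have hpR : (1 : ℝ) ≤ p := by exact_mod_cast hp
  have hM := mi_pos w (b := D.b) (c := D.c) D.ha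
  have key : ∀ j : Fin 3, ¬ D.Good j w → w (D.U j) < mi w D.a D.b D.c / (8 * p) := by
    intro j hj
    have hU : 0 < w (D.U j) := InfinitePlace.pos_iff.2 (D.U_ne j)
    unfold Good t at hj
    push Not at hj
    rw [lt_div_iff₀ (by positivity), ← Real.log_lt_log_iff (by positivity) hM,
      Real.log_mul hU.ne' (by positivity)]
    linarith
  by_contra hcon
  push Not at hcon
  have h1 := key i hcon.1
  have h2 := key j hcon.2
  have c1 := two_big_place hp hodd w D.ha D.h
  have c2 := two_big_place hp hodd w (a := D.b) (b := D.c) (c := D.a) D.hb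
    (by linear_combination D.h)
  have c3 := two_big_place hp hodd w (a := D.c) (b := D.a) (c := D.b) D.hc
    (by linear_combination D.h)
  rw [mi_rot] at c2
  rw [mi_rot, mi_rot] at c3
  have e0 : D.U 0 = D.a + D.b := rfl
  have e1 : D.U 1 = D.b + D.c := rfl
  have e2 : D.U 2 = D.c + D.a := rfl
  fin_cases i <;> fin_cases j <;> simp only [Fin.mk_zero, Fin.mk_one, Fin.reduceFinMk, e0, e1, e2]
    at h1 h2
  · exact hij rfl
  · exact c2 ⟨h2, h1⟩
  · exact c1 ⟨h1, h2⟩
  · exact c2 ⟨h1, h2⟩
  · exact hij rfl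
  · exact c3 ⟨h2, h1⟩
  · exact c1 ⟨h2, h1⟩
  · exact c3 ⟨h1, h2⟩
  · exact hij rfl

/-- if an index is good everywhere then the height is small -/
theorem ht_le_of_good (j : Fin 3) (h : ∀ w, D.Good j w) :
    D.ht ≤ Module.finrank ℚ K * Real.log (8 * p) := by
  have h4 : (∑ w' : InfinitePlace K, (w'.mult : ℝ)) = Module.finrank ℚ K := by
    rw [← Nat.cast_sum, InfinitePlace.sum_mult_eq]
  rw [← D.sum_t j, ← h4, Finset.sum_mul]
  exact Finset.sum_le_sum fun w _ => mul_le_mul_of_nonneg_left (h w) (Nat.cast_nonneg _)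

theorem ht_nonneg : 0 ≤ D.ht := Real.log_nonneg (one_le_mulHeight _)

/-- the units -/
theorem exists_un (j : Fin 3) : ∃ u : (𝓞 K)ˣ, algebraMap (𝓞 K) K (u : 𝓞 K) = D.U j / D.U 2 := by
  apply Pool.Agent.R803.CM.exists_unit _ (div_ne_zero (D.U_ne j) (D.U_ne 2))
  intro v
  have h1 : v (D.U j) = v (D.U 2) := by
    have e1 := D.hU v j
    have e2 := D.hU v 2
    exact e1.trans e2.symm
  rw [map_div₀, h1, div_self]
  exact (FinitePlace.pos_iff.mpr (D.U_ne 2)).ne'

/-- the units -/
noncomputable def un (j : Fin 3) : (𝓞 K)ˣ := (D.exists_un j).choose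

theorem un_eq (j : Fin 3) : algebraMap (𝓞 K) K (D.un j : 𝓞 K) = D.U j / D.U 2 :=
  (D.exists_un j).choose_spec

theorem log_un (j : Fin 3) (w : InfinitePlace K) :
    Real.log (w (algebraMap (𝓞 K) K (D.un j : 𝓞 K))) = D.t 2 w - D.t j w := by
  have h1 : 0 < w (D.U j) := InfinitePlace.pos_iff.2 (D.U_ne j)
  have h2 : 0 < w (D.U 2) := InfinitePlace.pos_iff.2 (D.U_ne 2)
  rw [un_eq, map_div₀, Real.log_div h1.ne' h2.ne']
  unfold t
  ring

end Dat

end Run7.h879.Sp
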