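import Pool.Agent.Run7.h879.Sp2

/-!
Small solutions of Fermat's equation: the units determine the exponent.
-/

set_option autoImplicit false

namespace Run7.h879.Sp

open NumberField IsDedekindDomain Height Pool.Agent.W7.FH

variable {K : Type} [Field K] [NumberField K]

lemma pow_sub_one_lt (v : FinitePlace K) {s : K} (h : v (s - 1) < 1) (n : ℕ) :
    v (s ^ n - 1) < 1 := by
  have hs : v s ≤ 1 := by
    have h1 := FinitePlace.add_le v (s - 1) 1
    rw [sub_add_cancel, map_one] at h1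
    exact h1.trans (max_le h.le le_rfl)
  induction n with
  | zero => simp
  | succ n ih =>
    have h1 : s ^ (n + 1) - 1 = s * (s ^ n - 1) + (s - 1) := by ring
    rw [h1]
    refine lt_of_le_of_lt (FinitePlace.add_le v _ _) (max_lt ?_ h)
    rw [map_mul]
    calc v s * v (s ^ n - 1) ≤ 1 * v (s ^ n - 1) :=
          mul_le_mul_of_nonneg_right hs (apply_nonneg _ _)
      _ < 1 := by rw [one_mul]; exact ih

/-- a solution for two exponents has no place at which `c` is smaller -/
theorem no_place {p q : ℕ} (hp : p.Prime) (hq : q.Prime) (hpq : p ≠ q) (hpo : Odd p) (hqo : Odd q)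
    {a b c : K} (ha : a ≠ 0) (hb : b ≠ 0)
    (h1 : a ^ p + b ^ p + c ^ p = 0) (h2 : a ^ q + b ^ q + c ^ q = 0) (v : FinitePlace K)
    (hab : v (a + b) = mx v a b c) : mx v a b c ≤ v c := by
  by_contra hlt
  push Not at hlt
  set M := mx v a b c with hM
  have hM0 : 0 < M := lt_of_le_of_lt (apply_nonneg _ _) hlt
  have haM : v a ≤ M := (le_max_left _ _).trans (le_max_left _ _)
  have hbM : v b ≤ M := (le_max_right _ _).trans (le_max_left _ _)
  have hp0 : p ≠ 0 := hp.ne_zero
  have hbe : v b = M := by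
    by_contra hne
    have hb1 : v b < M := lt_of_le_of_ne hbM hne
    have ha1 : v a < M := by
      have h3 : v (a ^ p) < M ^ p := by
        have e : a ^ p = -(b ^ p + c ^ p) := by linear_combination h1
        rw [e, map_neg_eq_map]
        refine lt_of_le_of_lt (FinitePlace.add_le v _ _) (max_lt ?_ ?_)
        · rw [map_pow]
          exact pow_lt_pow_left₀ hb1 (apply_nonneg _ _) hp0
        · rw [map_pow]
          exact pow_lt_pow_left₀ hlt (apply_nonneg _ _) hp0
      rw [map_pow] at h3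
      exact lt_of_pow_lt_pow_left₀ p hM0.le h3
    have h4 : M < M := by
      conv_lhs => rw [hM]
      exact max_lt (max_lt ha1 hb1) hlt
    exact lt_irrefl _ h4
  have hvb : 0 < v b := by rw [hbe]; exact hM0
  obtain ⟨t, ht⟩ : ∃ t : K, t = -(a / b) := ⟨_, rfl⟩
  have key : ∀ r : ℕ, r ≠ 0 → Odd r → a ^ r + b ^ r + c ^ r = 0 → v (t ^ r - 1) < 1 := by
    intro r hr0 hro h3
    have e : t ^ r - 1 = (c / b) ^ r := by
      rw [ht, hro.neg_pow, div_pow, div_pow]
      have hbr : b ^ r ≠ 0 := pow_ne_zero _ hb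
      field_simp
      linear_combination -h3
    rw [e, map_pow, map_div₀]
    apply pow_lt_one₀ (by positivity) _ hr0
    rw [div_lt_one hvb, hbe]
    exact hlt
  have k1 := key p hp.ne_zero hpo h1
  have k2 := key q hq.ne_zero hqo h2
  obtain ⟨m, -, hm⟩ := Nat.exists_mul_mod_eq_one_of_coprime ((Nat.coprime_primes hp hq).2 hpq)
    hq.one_lt
  have hm2 : p * m = q * (p * m / q) + 1 := by
    have := Nat.div_add_mod (p * m) q
    omega
  have k3 := pow_sub_one_lt v k1 m
  have k4 := pow_sub_one_lt v k2 (p * m / q)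
  rw [← pow_mul] at k3 k4
  have e1 : t - 1 = -(t * (t ^ (q * (p * m / q)) - 1)) + (t ^ (p * m) - 1) := by
    rw [hm2, pow_succ]
    have : q * (p * m / q) + 1 - 1 = q * (p * m / q) := by omega
    have e2 : (q * (p * m / q) + 1) / q = p * m / q := by rw [← hm2]
    rw [e2]
    ring
  have hvt : v t ≤ 1 := by
    rw [ht, map_neg_eq_map, map_div₀, div_le_one hvb, hbe]
    exact haM
  have k5 : v (t - 1) < 1 := by
    rw [e1]
    refine lt_of_le_of_lt (FinitePlace.add_le v _ _) (max_lt ?_ k3)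
    rw [map_neg_eq_map, map_mul]
    calc v t * v (t ^ (q * (p * m / q)) - 1) ≤ 1 * v (t ^ (q * (p * m / q)) - 1) :=
          mul_le_mul_of_nonneg_right hvt (apply_nonneg _ _)
      _ < 1 := by rw [one_mul]; exact k4
  have e3 : t - 1 = -((a + b) / b) := by
    rw [ht]
    field_simp
    ring
  rw [e3, map_neg_eq_map, map_div₀, div_lt_one hvb, hab, hbe] at k5
  exact lt_irrefl _ k5

/-- the solution is determined up to a factor by the units -/
theorem prop_of_un {p q : ℕ} (D : Dat K p) (E : Dat K q) (h : ∀ j, D.un j = E.un j) :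
    E.a ≠ 0 ∧ ∃ l : K, l ≠ 0 ∧ D.a = l * E.a ∧ D.b = l * E.b ∧ D.c = l * E.c := by
  refine ⟨E.ha, D.U 2 / E.U 2, div_ne_zero (D.U_ne 2) (E.U_ne 2), ?_⟩
  have h1 : ∀ j, D.U j = D.U 2 / E.U 2 * E.U j := by
    intro j
    have e1 := D.un_eq j
    have e2 := E.un_eq j
    rw [h j, e2] at e1
    have hD := D.U_ne 2
    have hE := E.U_ne 2
    field_simp
    field_simp at e1
    linear_combination -e1
  have d0 : D.U 0 = D.a + D.b := rfl
  have d1 : D.U 1 = D.b + D.c := rfl
  have d2 : D.U 2 = D.c + D.a := rfl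
  have e0 : E.U 0 = E.a + E.b := rfl
  have e1 : E.U 1 = E.b + E.c := rfl
  have e2 : E.U 2 = E.c + E.a := rfl
  obtain ⟨l, hl⟩ : ∃ l, l = D.U 2 / E.U 2 := ⟨_, rfl⟩
  rw [← hl] at h1 ⊢
  have g0 := h1 0
  have g1 := h1 1
  have g2 := h1 2
  rw [d0, e0] at g0
  rw [d1, e1] at g1
  rw [d2, e2] at g2
  have h2 : (2 : K) ≠ 0 := two_ne_zero
  refine ⟨?_, ?_, ?_⟩
  · apply mul_left_cancel₀ h2
    linear_combination g0 - g1 + g2
  · apply mul_left_cancel₀ h2
    linear_combination g0 + g1 - g2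
  · apply mul_left_cancel₀ h2
    linear_combination -g0 + g1 + g2

/-- units and exponents -/
theorem units_of_two {p q : ℕ} (hp : p.Prime) (hq : q.Prime) (hpq : p ≠ q) (hpo : Odd p)
    (hqo : Odd q) (D : Dat K p) (E : Dat K q) (h : ∀ j, D.un j = E.un j) :
    ∃ α β : (𝓞 K)ˣ, (algebraMap (𝓞 K) K (α : 𝓞 K)) ^ p + (algebraMap (𝓞 K) K (β : 𝓞 K)) ^ p + 1 = 0 := by
  obtain ⟨-, l, hl, h1, h2, h3⟩ := prop_of_un D E h
  have hl2 := pow_ne_zero q hl
  have hq' : D.a ^ q + D.b ^ q + D.c ^ q = 0 := by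
    rw [h1, h2, h3, mul_pow, mul_pow, mul_pow]
    linear_combination l ^ q * E.h
  have hv : ∀ v : FinitePlace K, v D.a = v D.c ∧ v D.b = v D.c := by
    intro v
    have c1 := no_place hp hq hpq hpo hqo D.ha D.hb D.h hq' v (D.hU v 0)
    have c2 := no_place hp hq hpq hpo hqo (a := D.b) (b := D.c) (c := D.a) D.hb D.hc
      (by linear_combination D.h) (by linear_combination hq') v (by rw [mx_rot]; exact D.hU v 1)
    have c3 := no_place hp hq hpq hpo hqo (a := D.c) (b := D.a) (c := D.b) D.hc D.ha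
      (by linear_combination D.h) (by linear_combination hq') v
      (by rw [mx_rot, mx_rot]; exact D.hU v 2)
    rw [mx_rot] at c2
    rw [mx_rot, mx_rot] at c3
    have e1 : v D.a ≤ mx v D.a D.b D.c := (le_max_left _ _).trans (le_max_left _ _)
    have e2 : v D.b ≤ mx v D.a D.b D.c := (le_max_right _ _).trans (le_max_left _ _)
    have e3 : v D.c ≤ mx v D.a D.b D.c := le_max_right _ _
    exact ⟨le_antisymm (e1.trans c1) (e3.trans c2), le_antisymm (e2.trans c1) (e3.trans c3)⟩
  obtain ⟨α, hα⟩ := Pool.Agent.R803.CM.exists_unit (D.a / D.c) (div_ne_zero D.ha D.hc) (by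
    intro v
    rw [map_div₀, (hv v).1, div_self]
    exact (FinitePlace.pos_iff.mpr D.hc).ne')
  obtain ⟨β, hβ⟩ := Pool.Agent.R803.CM.exists_unit (D.b / D.c) (div_ne_zero D.hb D.hc) (by
    intro v
    rw [map_div₀, (hv v).2, div_self]
    exact (FinitePlace.pos_iff.mpr D.hc).ne')
  refine ⟨α, β, ?_⟩
  rw [hα, hβ, div_pow, div_pow]
  have hcp : D.c ^ p ≠ 0 := pow_ne_zero _ D.hc
  field_simp
  linear_combination D.h

end Run7.h879.Sp
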