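import Pool.Agent.Run7.h879.Sp3
import Pool.Agent.N449.SP.UnitNF

/-!
Units with `α ^ p + β ^ p + 1 = 0`.
-/

set_option autoImplicit false

namespace Run7.h879.Sp

open NumberField IsDedekindDomain Height Pool.Agent.W7.FH Pool.Agent.N449.SP

variable {K : Type} [Field K] [NumberField K]

/-- the units as a subgroup of `Kˣ` -/
noncomputable def Gam (K : Type) [Field K] [NumberField K] : Subgroup Kˣ :=
  (Units.map (algebraMap (𝓞 K) K : 𝓞 K →* K)).range

theorem gam_fg : (Gam K).FG := by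
  have h1 : Group.FG (𝓞 K)ˣ := by
    rw [GroupFG.iff_add_fg, ← Module.Finite.iff_addGroup_fg]
    infer_instance
  exact (Group.fg_iff_subgroup_fg _).1 (Group.fg_range _)

/-- a unit all of whose large powers stay in a finite set -/
theorem abs_one (R : Finset K) : ∃ p0 : ℕ, ∀ p : ℕ, p0 ≤ p → ∀ α : (𝓞 K)ˣ,
    (algebraMap (𝓞 K) K (α : 𝓞 K)) ^ p ∈ R → ∀ w : InfinitePlace K,
      w (algebraMap (𝓞 K) K (α : 𝓞 K)) ≤ 1 := by
  classical
  obtain ⟨B, hB⟩ : ∃ B : ℝ, B = 1 + ∑ r ∈ R, ∑ w : InfinitePlace K, w r := ⟨_, rfl⟩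
  have hB1 : ∀ r ∈ R, ∀ w : InfinitePlace K, w r ≤ B := by
    intro r hr w
    have h1 : w r ≤ ∑ w : InfinitePlace K, w r :=
      Finset.single_le_sum (f := fun w : InfinitePlace K => w r) (fun _ _ => apply_nonneg _ _)
        (Finset.mem_univ w)
    have h2 : ∑ w : InfinitePlace K, w r ≤ ∑ r ∈ R, ∑ w : InfinitePlace K, w r :=
      Finset.single_le_sum (f := fun r => ∑ w : InfinitePlace K, w r)
        (fun _ _ => Finset.sum_nonneg fun _ _ => apply_nonneg _ _) hr
    linarith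
  have hBpos : 1 ≤ B := by
    rw [hB]
    have : 0 ≤ ∑ r ∈ R, ∑ w : InfinitePlace K, w r :=
      Finset.sum_nonneg fun _ _ => Finset.sum_nonneg fun _ _ => apply_nonneg _ _
    linarith
  have hfin := NumberField.Embeddings.finite_of_norm_le K ℂ 2
  -- the exponent at which the powers become large
  have hex : ∀ x : K × InfinitePlace K, ∃ n : ℕ, 1 < x.2 x.1 → ∀ m, n ≤ m → B < x.2 x.1 ^ m := by
    rintro ⟨x, w⟩
    by_cases h1 : 1 < w x
    · have h2 := (tendsto_pow_atTop_atTop_of_one_lt h1).eventually_gt_atTop B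
      obtain ⟨n, hn⟩ := Filter.eventually_atTop.1 h2
      exact ⟨n, fun _ m hm => hn m hm⟩
    · exact ⟨0, fun h => absurd h h1⟩
  choose n hn using hex
  obtain ⟨n2, hn2⟩ := Filter.eventually_atTop.1
    ((tendsto_pow_atTop_atTop_of_one_lt (by norm_num : (1 : ℝ) < 2)).eventually_gt_atTop B)
  obtain ⟨N, hN⟩ : ∃ N : ℕ, N = 1 + n2 + ∑ x ∈ hfin.toFinset, ∑ w : InfinitePlace K, n (x, w) :=
    ⟨_, rfl⟩
  refine ⟨N, fun p hp α hα w => ?_⟩
  obtain ⟨x, hx⟩ : ∃ x : K, x = algebraMap (𝓞 K) K (α : 𝓞 K) := ⟨_, rfl⟩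
  rw [← hx] at hα ⊢
  have h2 : ∀ w : InfinitePlace K, w x ≤ 2 := by
    intro w
    by_contra hcon
    push Not at hcon
    have h3 : (2 : ℝ) ^ p ≤ w x ^ p := pow_le_pow_left₀ (by norm_num) hcon.le _
    rw [← map_pow] at h3
    have h4 := hB1 _ hα w
    have h5 := hn2 p (by omega)
    linarith
  have hmem : x ∈ hfin.toFinset := by
    rw [Set.Finite.mem_toFinset]
    refine ⟨by rw [hx]; exact (α : 𝓞 K).2, fun φ => ?_⟩
    have := h2 (InfinitePlace.mk φ)
    rwa [InfinitePlace.apply] at this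
  by_contra hcon
  push Not at hcon
  have h6 : n (x, w) ≤ p := by
    have h7 : n (x, w) ≤ ∑ w : InfinitePlace K, n (x, w) :=
      Finset.single_le_sum (f := fun w : InfinitePlace K => n (x, w)) (fun _ _ => Nat.zero_le _)
        (Finset.mem_univ w)
    have h8 : ∑ w : InfinitePlace K, n (x, w) ≤ ∑ x ∈ hfin.toFinset, ∑ w : InfinitePlace K,
        n (x, w) :=
      Finset.single_le_sum (f := fun x => ∑ w : InfinitePlace K, n (x, w))
        (fun _ _ => Nat.zero_le _) hmem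
    omega
  have h7 := hn (x, w) hcon p h6
  have h8 := hB1 _ hα w
  rw [map_pow] at h8
  exact absurd h7 (not_lt.2 h8)

theorem no_units (hω : ∀ z : K, z ^ 2 + z + 1 ≠ 0) : ∃ p0 : ℕ, ∀ p : ℕ, p0 ≤ p →
    ∀ α β : (𝓞 K)ˣ, (algebraMap (𝓞 K) K (α : 𝓞 K)) ^ p + (algebraMap (𝓞 K) K (β : 𝓞 K)) ^ p + 1 ≠ 0 := by
  classical
  obtain ⟨R, hR⟩ := ue_numberField K (Gam K) gam_fg 3
  obtain ⟨p0, hp0⟩ := abs_one (K := K) (R ∪ R.image fun x => x⁻¹)
  refine ⟨p0, fun p hp α β h => ?_⟩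
  obtain ⟨A, hA⟩ : ∃ A : K, A = (algebraMap (𝓞 K) K (α : 𝓞 K)) ^ p := ⟨_, rfl⟩
  obtain ⟨B, hB⟩ : ∃ B : K, B = (algebraMap (𝓞 K) K (β : 𝓞 K)) ^ p := ⟨_, rfl⟩
  rw [← hA, ← hB] at h
  have hmem : ∀ u : (𝓞 K)ˣ, (algebraMap (𝓞 K) K (u : 𝓞 K)) ∈ Pm (Gam K) := fun u =>
    ⟨Units.map (algebraMap (𝓞 K) K : 𝓞 K →* K) u, ⟨u, rfl⟩, Or.inl rfl⟩
  have hAm : A ∈ Pm (Gam K) := by
    have := hmem (α ^ p)
    rwa [Units.val_pow_eq_pow_val, map_pow, ← hA] at this
  have hBm : B ∈ Pm (Gam K) := by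
    have := hmem (β ^ p)
    rwa [Units.val_pow_eq_pow_val, map_pow, ← hB] at this
  have h1m : (1 : K) ∈ Pm (Gam K) := by
    have := hmem 1
    rwa [Units.val_one, map_one] at this
  have hne : ∀ u : (𝓞 K)ˣ, algebraMap (𝓞 K) K (u : 𝓞 K) ≠ 0 := fun u =>
    RingOfIntegers.coe_ne_zero_iff.2 (Units.ne_zero u)
  have hA0 : A ≠ 0 := by rw [hA]; exact pow_ne_zero _ (hne α)
  have hB0 : B ≠ 0 := by rw [hB]; exact pow_ne_zero _ (hne β)
  have h3 := hR ![A, B, 1] (by
      intro i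
      fin_cases i
      · exact hAm
      · exact hBm
      · exact h1m) (by
      rw [Fin.sum_univ_three]
      exact h) (by
      intro J hJ hsum
      by_contra hJu
      -- the sum over the complement vanishes as well
      have e0 : ∑ i ∈ J, (![A, B, 1] : Fin 3 → K) i + ∑ i ∈ Jᶜ, (![A, B, 1] : Fin 3 → K) i = 0 := by
        rw [Finset.sum_add_sum_compl, Fin.sum_univ_three]
        exact h
      rw [hsum, zero_add] at e0
      have hall : ∀ i, (![A, B, 1] : Fin 3 → K) i ≠ 0 := by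
        intro i
        fin_cases i
        · exact hA0
        · exact hB0
        · exact one_ne_zero
      have hcard : J.card + Jᶜ.card = 3 := by
        rw [Finset.card_add_card_compl, Fintype.card_fin]
      have hJ1 : 1 ≤ J.card := hJ.card_pos
      have hJ2 : 1 ≤ Jᶜ.card := by
        rw [Nat.succ_le_iff, Finset.card_pos, Finset.nonempty_iff_ne_empty]
        intro h0
        apply hJu
        rwa [Finset.compl_eq_empty_iff] at h0
      rcases (by omega : J.card = 1 ∨ Jᶜ.card = 1) with h1 | h1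
      · obtain ⟨i, hi⟩ := Finset.card_eq_one.1 h1
        rw [hi, Finset.sum_singleton] at hsum
        exact hall i hsum
      · obtain ⟨i, hi⟩ := Finset.card_eq_one.1 h1
        rw [hi, Finset.sum_singleton] at e0
        exact hall i e0)
  have hAR : A ∈ R := by
    have := h3 0 2
    simpa using this
  have hBR : B ∈ R := by
    have := h3 1 2
    simpa using this
  have key : ∀ (u : (𝓞 K)ˣ) (X : K), X = (algebraMap (𝓞 K) K (u : 𝓞 K)) ^ p → X ∈ R →
      ∀ w : InfinitePlace K, w X = 1 := by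
    intro u X hX hXR w
    have e1 := hp0 p hp u (by rw [← hX]; exact Finset.mem_union_left _ hXR) w
    have hinv : algebraMap (𝓞 K) K ((u⁻¹ : (𝓞 K)ˣ) : 𝓞 K) = (algebraMap (𝓞 K) K (u : 𝓞 K))⁻¹ := by
      apply eq_inv_of_mul_eq_one_left
      rw [← map_mul, Units.inv_mul, map_one]
    have e2 := hp0 p hp u⁻¹ (by
      rw [hinv, inv_pow, ← hX]
      exact Finset.mem_union_right _ (Finset.mem_image_of_mem _ hXR)) w
    rw [hinv, map_inv₀] at e2
    have hpos : 0 < w (algebraMap (𝓞 K) K (u : 𝓞 K)) := InfinitePlace.pos_iff.2 (hne u)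
    have e3 : w (algebraMap (𝓞 K) K (u : 𝓞 K)) = 1 := by
      apply le_antisymm e1
      rwa [inv_le_one₀ hpos] at e2
    rw [hX, map_pow, e3, one_pow]
  have hAw := key α A hA hAR
  have hBw := key β B hB hBR
  obtain ⟨w⟩ : Nonempty (InfinitePlace K) := inferInstance
  have a1 := hAw w
  have b1 := hBw w
  rw [← InfinitePlace.norm_embedding_eq] at a1 b1
  have h4 := congrArg w.embedding h
  rw [map_add, map_add, map_one, map_zero] at h4
  apply hω A
  apply w.embedding.injective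
  rw [map_add, map_add, map_pow, map_one, map_zero]
  obtain ⟨z, hz⟩ : ∃ z, z = w.embedding A := ⟨_, rfl⟩
  obtain ⟨y, hy⟩ : ∃ y, y = w.embedding B := ⟨_, rfl⟩
  rw [← hz] at a1 h4 ⊢
  rw [← hy] at b1 h4
  have c1 : z * (starRingEnd ℂ) z = 1 := by
    rw [Complex.mul_conj, Complex.normSq_eq_norm_sq, a1]
    norm_num
  have c2 : y * (starRingEnd ℂ) y = 1 := by
    rw [Complex.mul_conj, Complex.normSq_eq_norm_sq, b1]
    norm_num
  have c3 : y = -1 - z := by linear_combination h4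
  rw [c3, map_sub, map_neg, map_one] at c2
  -- `z + conj z = -1`
  have c4 : z + (starRingEnd ℂ) z = -1 := by linear_combination c2 - c1
  linear_combination z * c4 - c1

end Run7.h879.Sp
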