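import Pool.Agent.Run7.h879.Sp3

/-!
Small solutions of Fermat's equation: counting.
-/

set_option autoImplicit false

namespace Run7.h879.Sp

open NumberField IsDedekindDomain Height Pool.Agent.W7.FH

/-- counting by cells -/
theorem cells {ι α : Type} [Fintype ι] (E : Finset α) (φ : α → ι → ℝ) (B : ι → ℝ)
    (hB : ∀ p ∈ E, ∀ i, |φ p i| ≤ B i) (hB0 : ∀ i, 0 ≤ B i) (n : ℕ)
    (hfib : ∀ F : Finset α, F ⊆ E → ∀ p0 ∈ F, (∀ p ∈ F, ∀ i, |φ p i - φ p0 i| < 1) → F.card ≤ n) :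
    (E.card : ℝ) ≤ n * ∏ i, (2 * B i + 2) := by
  classical
  obtain ⟨T, hT⟩ : ∃ T : ι → Finset ℤ, T = fun i => Finset.Icc ⌊-B i⌋ ⌊B i⌋ := ⟨_, rfl⟩
  have h1 : E.card ≤ n * (Fintype.piFinset T).card := by
    refine Finset.card_le_mul_card_image_of_maps_to (f := fun p i => ⌊φ p i⌋) ?_ n ?_
    · intro p hp
      rw [Fintype.mem_piFinset]
      intro i
      have h2 := abs_le.1 (hB p hp i)
      rw [hT, Finset.mem_Icc]
      exact ⟨Int.floor_le_floor h2.1, Int.floor_le_floor h2.2⟩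
    · intro b _
      rcases (E.filter fun p => (fun i => ⌊φ p i⌋) = b).eq_empty_or_nonempty with h0 | ⟨p0, hp0⟩
      · rw [h0]; simp
      · refine hfib _ (Finset.filter_subset _ _) p0 hp0 ?_
        intro p hp i
        rw [Finset.mem_filter] at hp hp0
        apply Int.abs_sub_lt_one_of_floor_eq_floor
        have e1 := congrFun hp.2 i
        have e2 := congrFun hp0.2 i
        exact e1.trans e2.symm
  have h2 : ((Fintype.piFinset T).card : ℝ) ≤ ∏ i, (2 * B i + 2) := by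
    rw [Fintype.card_piFinset]
    push_cast
    refine Finset.prod_le_prod (fun i _ => Nat.cast_nonneg _) fun i _ => ?_
    rw [hT, Int.card_Icc]
    have h3 : (0 : ℤ) ≤ ⌊B i⌋ + 1 - ⌊-B i⌋ := by
      have := Int.floor_le_floor (show -B i ≤ B i by have := hB0 i; linarith)
      omega
    have h4 : (((⌊B i⌋ + 1 - ⌊-B i⌋).toNat : ℕ) : ℝ) = ((⌊B i⌋ + 1 - ⌊-B i⌋ : ℤ) : ℝ) := by
      have := Int.toNat_of_nonneg h3
      exact_mod_cast congrArg (fun z : ℤ => (z : ℝ)) this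
    rw [h4]
    push_cast
    have h5 := Int.floor_le (B i)
    have h6 := Int.lt_floor_add_one (-B i)
    linarith
  calc (E.card : ℝ) ≤ ((n * (Fintype.piFinset T).card : ℕ) : ℝ) := by exact_mod_cast h1
    _ = n * ((Fintype.piFinset T).card : ℝ) := by push_cast; ring
    _ ≤ _ := mul_le_mul_of_nonneg_left h2 (Nat.cast_nonneg _)

lemma lam_any (x : Fin 3 → ℝ) (s i j : Fin 3) (h : |x (s + 1) - x (s + 2)| < 1)
    (hi : i ≠ s) (hj : j ≠ s) : |x i - x j| < 1 := by
  rw [abs_lt] at h ⊢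
  fin_cases s <;> fin_cases i <;> fin_cases j <;> simp at hi hj h ⊢ <;>
    constructor <;> linarith [h.1, h.2]

lemma tri_any (x : Fin 3 → ℝ) (s i j : Fin 3) (h : |x (s + 1) - x (s + 2)| < 1)
    (h' : |x s - x (s + 1)| < 1) : |x i - x j| < 2 := by
  rw [abs_lt] at h h' ⊢
  fin_cases s <;> fin_cases i <;> fin_cases j <;> simp at h h' ⊢ <;>
    constructor <;> linarith [h.1, h.2, h'.1, h'.2]

section
variable {W : Type} [Fintype W]

theorem close_one (m : W → ℝ) (hm : ∀ w, 1 ≤ m w) (τ : Fin 3 → W → ℝ)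
    (hsum : ∀ i j, ∑ w, m w * (τ i w - τ j w) = 0) (s : W → Fin 3) (w1 w2 : W)
    (h12 : s w1 ≠ s w2) (hl : ∀ w, |τ (s w + 1) w - τ (s w + 2) w| < 1)
    (hmu : ∀ w, w ≠ w1 → w ≠ w2 → |τ (s w) w - τ (s w + 1) w| < 1) (i j : Fin 3) :
    |τ i w1 - τ j w1| ≤ 2 * ∑ w, m w + 1 := by
  classical
  have hS : 0 ≤ ∑ w, m w := Finset.sum_nonneg fun w _ => zero_le_one.trans (hm w)
  obtain ⟨k, hk1, hk2⟩ : ∃ k : Fin 3, k ≠ s w1 ∧ k ≠ s w2 := by
    revert h12
    generalize s w1 = x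
    generalize s w2 = y
    revert x y
    decide
  have hA : ∀ w, w ≠ w1 → |τ (s w1) w - τ k w| ≤ 2 := by
    intro w hw
    by_cases hw2 : w = w2
    · subst hw2
      have := lam_any (fun i => τ i w) (s w) (s w1) k (hl w) h12 hk2
      linarith
    · exact (tri_any (fun i => τ i w) (s w) (s w1) k (hl w) (hmu w hw hw2)).le
  have hB : |τ (s w1) w1 - τ k w1| ≤ 2 * ∑ w, m w := by
    have h1 := hsum (s w1) k
    rw [← Finset.add_sum_erase _ _ (Finset.mem_univ w1)] at h1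
    have h2 : m w1 * (τ (s w1) w1 - τ k w1) =
        -∑ w ∈ Finset.univ.erase w1, m w * (τ (s w1) w - τ k w) := by linarith
    have h3 : |m w1 * (τ (s w1) w1 - τ k w1)| ≤ ∑ w ∈ Finset.univ.erase w1, m w * 2 := by
      rw [h2, abs_neg]
      refine (Finset.abs_sum_le_sum_abs _ _).trans (Finset.sum_le_sum fun w hw => ?_)
      rw [abs_mul, abs_of_nonneg (zero_le_one.trans (hm w))]
      exact mul_le_mul_of_nonneg_left (hA w (Finset.ne_of_mem_erase hw))
        (zero_le_one.trans (hm w))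
    have h4 : ∑ w ∈ Finset.univ.erase w1, m w * 2 ≤ 2 * ∑ w, m w := by
      rw [← Finset.sum_mul, mul_comm]
      apply mul_le_mul_of_nonneg_left _ (by norm_num)
      exact Finset.sum_le_sum_of_subset_of_nonneg (Finset.erase_subset _ _)
        fun w _ _ => zero_le_one.trans (hm w)
    rw [abs_mul, abs_of_nonneg (zero_le_one.trans (hm w1))] at h3
    have h5 := hm w1
    have h6 := abs_nonneg (τ (s w1) w1 - τ k w1)
    nlinarith
  have hC : ∀ j : Fin 3, j ≠ s w1 → |τ (s w1) w1 - τ j w1| ≤ 2 * ∑ w, m w + 1 := by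
    intro j hj
    have h1 := lam_any (fun i => τ i w1) (s w1) k j (hl w1) hk1 hj
    calc |τ (s w1) w1 - τ j w1| = |(τ (s w1) w1 - τ k w1) + (τ k w1 - τ j w1)| := by
          congr 1; ring
      _ ≤ |τ (s w1) w1 - τ k w1| + |τ k w1 - τ j w1| := abs_add_le _ _
      _ ≤ _ := by linarith
  by_cases hi : i = s w1
  · by_cases hj : j = s w1
    · rw [hi, hj, sub_self, abs_zero]; linarith
    · rw [hi]; exact hC j hj
  · by_cases hj : j = s w1
    · rw [hj, abs_sub_comm]; exact hC i hi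
    · have := lam_any (fun i => τ i w1) (s w1) i j (hl w1) hi hj
      linarith

theorem close_all (m : W → ℝ) (hm : ∀ w, 1 ≤ m w) (τ : Fin 3 → W → ℝ)
    (hsum : ∀ i j, ∑ w, m w * (τ i w - τ j w) = 0) (s : W → Fin 3) (w1 w2 : W)
    (h12 : s w1 ≠ s w2) (hl : ∀ w, |τ (s w + 1) w - τ (s w + 2) w| < 1)
    (hmu : ∀ w, w ≠ w1 → w ≠ w2 → |τ (s w) w - τ (s w + 1) w| < 1) (i j : Fin 3) (w : W) :
    |τ i w - τ j w| ≤ 2 * ∑ w, m w + 1 := by
  have hS : 1 ≤ ∑ w, m w := by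
    have h1 : m w1 ≤ ∑ w, m w :=
      Finset.single_le_sum (f := m) (fun w _ => zero_le_one.trans (hm w)) (Finset.mem_univ w1)
    exact (hm w1).trans h1
  by_cases h1 : w = w1
  · subst h1
    exact close_one m hm τ hsum s w w2 h12 hl hmu i j
  by_cases h2 : w = w2
  · subst h2
    exact close_one m hm τ hsum s w w1 (Ne.symm h12) hl (fun w' g1 g2 => hmu w' g2 g1) i j
  have := tri_any (fun i => τ i w) (s w) i j (hl w) (hmu w h1 h2)
  linarith

end

variable {K : Type} [Field K] [NumberField K]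

/-- units of bounded size -/
theorem finite_units (R : ℝ) :
    {u : (𝓞 K)ˣ | ∀ w : InfinitePlace K, |Real.log (w (algebraMap (𝓞 K) K (u : 𝓞 K)))| ≤ R}.Finite := by
  have h := NumberField.Embeddings.finite_of_norm_le K ℂ (Real.exp R)
  refine Set.Finite.of_finite_image (f := fun u : (𝓞 K)ˣ => algebraMap (𝓞 K) K (u : 𝓞 K))
    (h.subset ?_) ?_
  · rintro _ ⟨u, hu, rfl⟩
    refine ⟨(u : 𝓞 K).2, fun φ => ?_⟩
    have h1 := (abs_le.1 (hu (InfinitePlace.mk φ))).2
    have h2 : 0 < InfinitePlace.mk φ (algebraMap (𝓞 K) K (u : 𝓞 K)) :=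
      InfinitePlace.pos_iff.2 (RingOfIntegers.coe_ne_zero_iff.2 (Units.ne_zero u))
    rw [Real.log_le_iff_le_exp h2, InfinitePlace.apply] at h1
    exact h1
  · intro u _ v _ huv
    exact Units.ext (RingOfIntegers.coe_injective huv)

end Run7.h879.Sp
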