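import Pool.Agent.Run7.h879.Sp6
import Pool.Agent.Run7.h879.Sp4

/-!
Small solutions of Fermat's equation: the main theorem.
-/

set_option autoImplicit false

namespace Run7.h879.Sp

open NumberField IsDedekindDomain Height Pool.Agent.W7.FH

variable {K : Type} [Field K] [NumberField K]

/-- the primes up to `P` with small solutions of logarithmic height at most `Y` -/
def Exc (K : Type) [Field K] [NumberField K] (P : ℕ) (Y : ℝ) : Set ℕ :=
  {p | p.Prime ∧ p ≤ P ∧ ∃ a b c : K, a ≠ 0 ∧ b ≠ 0 ∧ c ≠ 0 ∧ a ^ p + b ^ p + c ^ p = 0 ∧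
    logHeight ![a, b, c] ≤ Y ∧ 2 ^ Module.finrank ℚ K * mulHeight ![a, b, c] < 2 ^ p}

theorem exc_le (p00 : ℕ) (hp00 : ∀ p : ℕ, p00 ≤ p →
    ∀ α β : (𝓞 K)ˣ, (algebraMap (𝓞 K) K (α : 𝓞 K)) ^ p + (algebraMap (𝓞 K) K (β : 𝓞 K)) ^ p + 1 ≠ 0)
    (P : ℕ) (Y : ℝ) (hP : 2 ≤ P) (hY : 1 ≤ Y) :
    ((Exc K P Y).ncard : ℝ) ≤ (p00 + 2 * Module.finrank ℚ K + 6 : ℕ) +
      (nu K * (2 * (Module.finrank ℚ K * Real.log (8 * P) +
        Module.finrank ℚ K + 1) + 2) ^ (2 * Fintype.card (InfinitePlace K)) +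
      3 ^ Fintype.card (InfinitePlace K) *
        (nu K * ((2 * Real.log (16 * P) + 2) ^ Fintype.card (InfinitePlace K) *
        (2 * (Y + Module.finrank ℚ K + 1) + 2) ^ (Fintype.card (InfinitePlace K) - 2)))) := by
  classical
  obtain ⟨N0, hN0⟩ : ∃ N0 : ℕ, N0 = p00 + 2 * Module.finrank ℚ K + 6 := ⟨_, rfl⟩
  rw [← hN0]
  obtain ⟨S, hS⟩ : ∃ S : Finset ℕ, S = (Finset.range (P + 1)).filter
    fun p => p ∈ Exc K P Y ∧ N0 ≤ p := ⟨_, rfl⟩
  have hmem0 : ∀ p ∈ S, p ∈ Exc K P Y ∧ N0 ≤ p := fun p hp => by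
    rw [hS, Finset.mem_filter] at hp
    exact hp.2
  have hmem : ∀ p : {p // p ∈ S}, p.1 ∈ Exc K P Y ∧ N0 ≤ p.1 := fun p => hmem0 p.1 p.2
  have hdat : ∀ p : {p // p ∈ S}, ∃ D : Dat K p.1, D.ht ≤ Y := by
    intro p
    obtain ⟨⟨hpp, hpP, a, b, c, ha, hb, hc, h, hh, hsm⟩, hge⟩ := hmem p
    obtain ⟨D, rfl, rfl, rfl⟩ := exists_dat hpp (by omega) (by omega) (by omega) ha hb hc h hsm
    exact ⟨D, hh⟩
  choose D hD using hdat
  let Φ : Fam K {p // p ∈ S} :=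
    { q := Subtype.val
      hq := Subtype.val_injective
      hp := fun p => (hmem p).1.1
      ho := fun p => (hmem p).1.1.odd_of_ne_two (by have := (hmem p).2; omega)
      D := D
      hno := fun p => hp00 p.1 (by have := (hmem p).2; omega) }
  have h1 := count_all Φ Finset.univ Y P (by exact_mod_cast (by omega : 1 ≤ P)) (by linarith)
    (fun a _ => hD a) (fun a _ => by
      have := (hmem a).1.2.1
      exact_mod_cast this)
  rw [Finset.card_univ, Fintype.card_coe] at h1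
  have h2 : (Exc K P Y).ncard ≤ N0 + S.card := by
    have h3 : Exc K P Y ⊆ ((Finset.range N0 ∪ S : Finset ℕ) : Set ℕ) := by
      intro p hp
      rw [Finset.mem_coe, Finset.mem_union, Finset.mem_range]
      by_cases h : p < N0
      · exact Or.inl h
      · right
        rw [hS, Finset.mem_filter, Finset.mem_range]
        exact ⟨by have := hp.2.1; omega, hp, by omega⟩
    refine (Set.ncard_le_ncard h3 (Finset.finite_toSet _)).trans ?_
    rw [Set.ncard_coe_finset]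
    refine (Finset.card_union_le _ _).trans ?_
    rw [Finset.card_range]
  have h3 : ((Exc K P Y).ncard : ℝ) ≤ N0 + S.card := by exact_mod_cast h2
  linarith

theorem main_one (hω : ∀ z : K, z ^ 2 + z + 1 ≠ 0) : ∃ C : ℝ, ∀ (P : ℕ) (Y : ℝ), 2 ≤ P → 1 ≤ Y →
    ((Exc K P Y).ncard : ℝ) ≤
      C * Real.log P ^ (2 * Units.rank K + 2) * Y ^ (Units.rank K - 1) := by
  obtain ⟨p00, hp00⟩ := no_units hω
  obtain ⟨n, hn⟩ : ∃ n, n = Fintype.card (InfinitePlace K) := ⟨_, rfl⟩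
  obtain ⟨d, hd⟩ : ∃ d, d = Module.finrank ℚ K := ⟨_, rfl⟩
  have hn1 : 1 ≤ n := by
    rw [hn]
    exact Fintype.card_pos
  have e1 : 2 * Units.rank K + 2 = 2 * n := by
    rw [Units.rank, hn]
    omega
  have e2 : Units.rank K - 1 = n - 2 := by
    rw [Units.rank, hn]
    omega
  rw [e1, e2]
  obtain ⟨N0, hN0⟩ : ∃ N0 : ℕ, N0 = p00 + 2 * d + 6 := ⟨_, rfl⟩
  refine ⟨N0 * 2 ^ (2 * n) + nu K * (12 * d + 8) ^ (2 * n) +
    3 ^ n * (nu K * (28 ^ n * (2 * d + 6) ^ (n - 2))), fun P Y hP hY => ?_⟩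
  have h1 := exc_le p00 hp00 P Y hP hY
  rw [← hn, ← hd, ← hN0] at h1
  refine h1.trans ?_
  obtain ⟨l, hl⟩ : ∃ l, l = Real.log P := ⟨_, rfl⟩
  rw [← hl]
  have hPR : (2 : ℝ) ≤ P := by exact_mod_cast hP
  have hl2 : 1 / 2 ≤ l := by
    rw [hl]
    have h2 : Real.log 2 ≤ Real.log P := Real.log_le_log (by norm_num) hPR
    have h3 := Real.log_two_gt_d9
    linarith
  have h8 : Real.log (8 * P) ≤ 4 * l := by
    rw [Real.log_mul (by norm_num) (by positivity), ← hl]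
    have h2 : Real.log 8 = 3 * Real.log 2 := by
      rw [show (8 : ℝ) = 2 ^ 3 by norm_num, Real.log_pow]
      norm_num
    have h3 : Real.log 2 ≤ l := by rw [hl]; exact Real.log_le_log (by norm_num) hPR
    linarith
  have h16 : Real.log (16 * P) ≤ 5 * l := by
    rw [Real.log_mul (by norm_num) (by positivity), ← hl]
    have h2 : Real.log 16 = 4 * Real.log 2 := by
      rw [show (16 : ℝ) = 2 ^ 4 by norm_num, Real.log_pow]
      norm_num
    have h3 : Real.log 2 ≤ l := by rw [hl]; exact Real.log_le_log (by norm_num) hPR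
    linarith
  have hd0 : (0 : ℝ) ≤ d := Nat.cast_nonneg _
  have hlog8 : 0 ≤ Real.log (8 * P) := Real.log_nonneg (by linarith)
  have hlog16 : 0 ≤ Real.log (16 * P) := Real.log_nonneg (by linarith)
  have hl0 : 0 ≤ l := by linarith
  have hYn : 1 ≤ Y ^ (n - 2) := one_le_pow₀ hY
  have k1 : (2 * (d * Real.log (8 * P) + d + 1) + 2) ^ (2 * n) ≤ (12 * d + 8) ^ (2 * n) * l ^ (2 * n) := by
    rw [← mul_pow]
    apply pow_le_pow_left₀ (by positivity)
    nlinarith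
  have k2 : (2 * Real.log (16 * P) + 2) ^ n ≤ 28 ^ n * l ^ (2 * n) := by
    have h2 : (28 : ℝ) ^ n * l ^ (2 * n) = (28 * l ^ 2) ^ n := by rw [mul_pow, pow_mul]
    rw [h2]
    apply pow_le_pow_left₀ (by positivity)
    nlinarith
  have k3 : (2 * (Y + d + 1) + 2) ^ (n - 2) ≤ (2 * d + 6) ^ (n - 2) * Y ^ (n - 2) := by
    rw [← mul_pow]
    apply pow_le_pow_left₀ (by positivity)
    nlinarith
  have k4 : (1 : ℝ) ≤ 2 ^ (2 * n) * l ^ (2 * n) := by
    rw [← mul_pow]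
    exact one_le_pow₀ (by linarith)
  have hln : 0 ≤ l ^ (2 * n) := by positivity
  have g1 : (N0 : ℝ) ≤ N0 * 2 ^ (2 * n) * l ^ (2 * n) * Y ^ (n - 2) := by
    have : (1 : ℝ) * 1 ≤ (2 ^ (2 * n) * l ^ (2 * n)) * Y ^ (n - 2) :=
      mul_le_mul k4 hYn zero_le_one (by positivity)
    have h2 : (0 : ℝ) ≤ N0 := Nat.cast_nonneg _
    calc (N0 : ℝ) = N0 * (1 * 1) := by ring
      _ ≤ N0 * ((2 ^ (2 * n) * l ^ (2 * n)) * Y ^ (n - 2)) := mul_le_mul_of_nonneg_left this h2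
      _ = _ := by ring
  have g2 : nu K * (2 * (d * Real.log (8 * P) + d + 1) + 2) ^ (2 * n) ≤
      nu K * (12 * d + 8) ^ (2 * n) * l ^ (2 * n) * Y ^ (n - 2) := by
    have h2 : (0 : ℝ) ≤ nu K := Nat.cast_nonneg _
    calc nu K * (2 * (d * Real.log (8 * P) + d + 1) + 2) ^ (2 * n) ≤
        nu K * ((12 * d + 8) ^ (2 * n) * l ^ (2 * n)) := mul_le_mul_of_nonneg_left k1 h2
      _ = nu K * ((12 * d + 8) ^ (2 * n) * l ^ (2 * n)) * 1 := by ring
      _ ≤ nu K * ((12 * d + 8) ^ (2 * n) * l ^ (2 * n)) * Y ^ (n - 2) :=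
          mul_le_mul_of_nonneg_left hYn (by positivity)
      _ = _ := by ring
  have g3 : 3 ^ n * (nu K * ((2 * Real.log (16 * P) + 2) ^ n * (2 * (Y + d + 1) + 2) ^ (n - 2))) ≤
      3 ^ n * (nu K * (28 ^ n * (2 * d + 6) ^ (n - 2))) * l ^ (2 * n) * Y ^ (n - 2) := by
    have h2 : (0 : ℝ) ≤ nu K := Nat.cast_nonneg _
    calc 3 ^ n * (nu K * ((2 * Real.log (16 * P) + 2) ^ n * (2 * (Y + d + 1) + 2) ^ (n - 2))) ≤
        3 ^ n * (nu K * ((28 ^ n * l ^ (2 * n)) * ((2 * d + 6) ^ (n - 2) * Y ^ (n - 2)))) := by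
          gcongr
      _ = _ := by ring
  calc _ ≤ N0 * 2 ^ (2 * n) * l ^ (2 * n) * Y ^ (n - 2) +
        (nu K * (12 * d + 8) ^ (2 * n) * l ^ (2 * n) * Y ^ (n - 2) +
        3 ^ n * (nu K * (28 ^ n * (2 * d + 6) ^ (n - 2))) * l ^ (2 * n) * Y ^ (n - 2)) := by
        linarith
    _ = _ := by ring

end Run7.h879.Sp
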